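import Pool.Agent.Mod4.Split

/-!
# The ideal generated by a maximal commuting set of generators
-/

set_option autoImplicit false
set_option linter.unusedSectionVars false

namespace Pool.Agent.Mod4

open Module Pool.Agent.CoprimeSig
open Pool.Agent.OddRank (lieSpan subset_lieSpan lieSpan_lie lieSpan_le)

variable {K V : Type*} [Field K] [CharZero K] [IsAlgClosed K] [AddCommGroup V] [Module K V]
  [FiniteDimensional K V] {g t : Submodule K (End K V)}

theorem all_in [Nontrivial V] {G S : Set (End K V)} (hGe : ∀ e ∈ G, e * e = e)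
    (hone : (1 : End K V) ∈ lieSpan G)
    (hGt : ∀ e ∈ G, LinearMap.trace K V ((2 : K) • e - 1) = 0)
    (hirr : ∀ U : Submodule K V, (∀ e ∈ G, ∀ w ∈ U, e w ∈ U) → U = ⊥ ∨ U = ⊤)
    (hSG : S ⊆ G) (hmax : ∀ e ∈ G, (∀ ε ∈ S, e * ε = ε * e) → e ∈ Submodule.span K S) :
    ∀ x ∈ lieSpan G, ∃ a ∈ idl (lieSpan G) S, ∃ c : K, x = a + c • 1 := by
  have h2 : (2 : K) ≠ 0 := two_ne_zero
  set s := idl (lieSpan G) S with hs
  have hGg : ∀ e ∈ G, e ∈ lieSpan G := subset_lieSpan
  have hhg : ∀ e ∈ G, (2 : K) • e - 1 ∈ lieSpan G := fun e he =>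
    (lieSpan G).sub_mem ((lieSpan G).smul_mem _ (hGg e he)) hone
  have hsg : s ≤ lieSpan G :=
    sInf_le ⟨fun ε hε => hhg ε (hSG hε), fun x hx z hz => lieSpan_lie x hx z hz⟩
  have hsi : ∀ x ∈ lieSpan G, ∀ z ∈ s, x * z - z * x ∈ s := by
    intro x hx z hz
    rw [hs, idl, Submodule.mem_sInf] at hz ⊢
    exact fun I hI => hI.2 x hx z (hz I hI)
  have hsS : ∀ ε ∈ S, (2 : K) • ε - 1 ∈ s := by
    intro ε hε
    rw [hs, idl, Submodule.mem_sInf]
    exact fun I hI => hI.1 ε hε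
  have hstr : ∀ a ∈ s, LinearMap.trace K V a = 0 := by
    have h1 : s ≤ LinearMap.ker (LinearMap.trace K V) := by
      refine sInf_le ⟨fun ε hε => hGt ε (hSG hε), fun x _ z _ => ?_⟩
      rw [LinearMap.mem_ker, map_sub, LinearMap.trace_mul_comm, sub_self]
    exact fun a ha => h1 ha
  have hirr' : ∀ U : Submodule K V, (∀ a ∈ lieSpan G, ∀ w ∈ U, a w ∈ U) → U = ⊥ ∨ U = ⊤ :=
    fun U hU => hirr U fun e he => hU e (hGg e he)
  -- the space of all a + c
  let X : Submodule K (End K V) := s ⊔ Submodule.span K {1}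
  have hXmem : ∀ x, x ∈ X ↔ ∃ a ∈ s, ∃ c : K, x = a + c • 1 := by
    intro x
    rw [Submodule.mem_sup]
    constructor
    · rintro ⟨a, ha, b, hb, rfl⟩
      obtain ⟨c, rfl⟩ := Submodule.mem_span_singleton.1 hb
      exact ⟨a, ha, c, rfl⟩
    · rintro ⟨a, ha, c, rfl⟩
      exact ⟨a, ha, c • 1, Submodule.smul_mem _ _ (Submodule.mem_span_singleton_self 1), rfl⟩
  have hhalf : ∀ e : End K V, (2 : K) • e - 1 ∈ s → e ∈ X := by
    intro e he
    rw [hXmem]
    refine ⟨(2 : K)⁻¹ • ((2 : K) • e - 1), s.smul_mem _ he, (2 : K)⁻¹, ?_⟩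
    rw [smul_sub, smul_smul, inv_mul_cancel₀ h2, one_smul, sub_add_cancel]
  have hspan : Submodule.span K S ≤ X := by
    rw [Submodule.span_le]
    exact fun ε hε => hhalf ε (hsS ε hε)
  have hGX : ∀ e ∈ G, e ∈ X := by
    intro e he
    rcases comm_split lieSpan_lie hirr' hsg hsi hstr (hhg e he) (hGe e he) (hGt e he) with h | h
    · exact hhalf e h
    · apply hspan
      apply hmax e he
      intro ε hε
      have h3 := h _ (hsS ε hε)
      rw [mul_sub, sub_mul, mul_one, one_mul, mul_smul_comm, smul_mul_assoc, sub_left_inj] at h3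
      exact smul_right_injective _ h2 h3
  have hXlie : ∀ a ∈ X, ∀ b ∈ X, a * b - b * a ∈ X := by
    intro a ha b hb
    obtain ⟨a', ha', c, rfl⟩ := (hXmem a).1 ha
    obtain ⟨b', hb', d, rfl⟩ := (hXmem b).1 hb
    have h3 : (a' + c • 1) * (b' + d • 1) - (b' + d • 1) * (a' + c • 1) = a' * b' - b' * a' := by
      simp only [mul_add, add_mul, smul_mul_assoc, mul_smul_comm, one_mul, mul_one, smul_add]
      rw [smul_smul, smul_smul, mul_comm c d]
      abel
    rw [h3]
    exact Submodule.mem_sup_left (hsi a' (hsg ha') b' hb')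
  intro x hx
  exact (hXmem x).1 (lieSpan_le hGX hXlie hx)

end Pool.Agent.Mod4
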