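import Pool.Agent.Mod4.Defs

/-!
# A root vector of odd rank
-/

set_option autoImplicit false
set_option linter.unusedSectionVars false

namespace Pool.Agent.Mod4

open Module Pool.Agent.CoprimeSig

variable {K V : Type*} [Field K] [CharZero K] [IsAlgClosed K] [AddCommGroup V] [Module K V]
  [FiniteDimensional K V] {g t : Submodule K (End K V)}

variable {ι : Type} [Fintype ι] {α : ι → End K V → K} {x y : ι → End K V} {m : ι → ℕ}
  {H E F : End K V}

/-- the trace of a diagonal operator -/
private theorem trace_diag' {I : Type} [Fintype I] (v : Basis I K V) (D : End K V) (d : I → K)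
    (h : ∀ k, D (v k) = d k • v k) : LinearMap.trace K V D = ∑ k, d k := by
  classical
  rw [LinearMap.trace_eq_matrix_trace K v, Matrix.trace]
  refine Finset.sum_congr rfl fun k _ => ?_
  rw [Matrix.diag_apply, LinearMap.toMatrix_apply, h, map_smul, Basis.repr_self,
    Finsupp.smul_apply, Finsupp.single_eq_same, smul_eq_mul, mul_one]

/-- counting: a sum of values in `{-1, 0, 1}` has the parity of the number of nonzero values -/
private theorem odd_abs {ι : Type} [Fintype ι] (q : ι → ℤ)
    (hq : ∀ i, q i = -1 ∨ q i = 0 ∨ q i = 1) (h : Odd (∑ i, q i)) :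
    Odd (∑ i, (q i).natAbs) := by
  have h1 : ((∑ i, (q i).natAbs : ℕ) : ℤ) = ∑ i, q i + 2 * ∑ i, (if q i = -1 then 1 else 0) := by
    rw [Nat.cast_sum, Finset.mul_sum, ← Finset.sum_add_distrib]
    refine Finset.sum_congr rfl fun i _ => ?_
    rcases hq i with h | h | h <;> simp [h]
  rw [← Int.odd_coe_nat, h1]
  exact h.add_even (even_two_mul _)

theorem exists_odd (R : PR g t α x y m H E F) (C : Cartan g t)
    (hodd : ∀ (u : V) (μ : ℤ), u ≠ 0 → H u = (μ : K) • u → Odd μ)
    {ψ : V →ₗ[K] V →ₗ[K] K} (halt : ∀ x, ψ x x = 0) (hnd : ∀ x, (∀ y, ψ x y = 0) → x = 0)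
    (hsim : ∀ D ∈ g, ∃ μ : K, ∀ u v, ψ (D u) v + ψ u (D v) = μ * ψ u v)
    {e : End K V} (he : e ∈ t) (hee : e * e = e) (heψ : ∀ u v, ψ (e u) v + ψ u (e v) = ψ u v)
    {h : ℕ} (hdim : finrank K V = 2 * h) (hh : Odd h) :
    ∃ i, Odd (finrank K (LinearMap.range (x i))) := by
  classical
  obtain ⟨I, hI, v, hv⟩ := C.diag
  have hq := fun i => opp_eig (R.opp i) v hv
  choose q hq1 hq2 using hq
  choose c hc using hv e he
  have hc01 : ∀ k, c k = 0 ∨ c k = 1 := by
    intro k
    have h1 := LinearMap.congr_fun hee (v k)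
    rw [Module.End.mul_apply, hc, map_smul, hc, smul_smul] at h1
    have h2 : c k * c k = c k := smul_left_injective K (v.ne_zero k) h1
    have h3 : c k * (c k - 1) = 0 := by linear_combination h2
    rcases mul_eq_zero.1 h3 with h4 | h4
    · exact Or.inl h4
    · exact Or.inr (sub_eq_zero.1 h4)
  obtain ⟨σ, hσ1, hσ2, -, hσ4⟩ := OddRank.exists_adjoint halt hnd
  have hz : ∀ D : End K V, (∀ u w, ψ u (D w) = 0) → D = 0 := by
    intro D hD
    ext w
    rw [LinearMap.zero_apply]
    apply hnd
    intro u
    rw [OddRank.alt_neg halt, hD, neg_zero]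
  have hsim' : ∀ (D : End K V) (μ : K), (∀ u w, ψ (D u) w + ψ u (D w) = μ * ψ u w) →
      σ D = μ • (1 : End K V) - D := by
    intro D μ hD
    rw [← sub_eq_zero]
    apply hz
    intro u w
    have h1 := hD u w
    rw [hσ1] at h1
    simp only [LinearMap.sub_apply, LinearMap.smul_apply, Module.End.one_apply, map_sub, map_smul,
      smul_eq_mul]
    linear_combination h1
  have hσe : σ e = 1 - e := by
    have := hsim' e 1 (fun u w => by rw [heψ, one_mul])
    rwa [one_smul] at this
  -- the trace of `e`
  have hcard : ((Finset.univ.filter fun k => c k = 1).card : K) = h := by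
    have h1 : LinearMap.trace K V (σ e) = LinearMap.trace K V 1 - LinearMap.trace K V e := by
      rw [hσe, map_sub]
    rw [hσ4, LinearMap.trace_one, hdim, trace_diag' v e c hc] at h1
    have h2 : ∑ k, c k = ((Finset.univ.filter fun k => c k = 1).card : K) := by
      rw [Finset.card_filter, Nat.cast_sum]
      refine Finset.sum_congr rfl fun k _ => ?_
      rcases hc01 k with h3 | h3 <;> simp [h3]
    rw [h2] at h1
    push_cast at h1
    linear_combination h1 / 2
  have hcard' : (Finset.univ.filter fun k => c k = 1).card = h := Nat.cast_injective hcard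
  -- the ranks
  have hrank : ∀ i, finrank K (LinearMap.range (x i)) =
      ∑ k ∈ Finset.univ.filter (fun k => c k = 1), (q i k).natAbs := by
    intro i
    have P := R.opp i
    obtain ⟨μ, hμ⟩ := hsim _ P.rx.mem
    obtain ⟨ν, hν⟩ := hsim _ P.ry.mem
    have hx := hsim' _ μ hμ
    have hy := hsim' _ ν hν
    have hσh : σ (x i * y i - y i * x i) = -(x i * y i - y i * x i) := by
      rw [map_sub, hσ2, hσ2, hx, hy]
      simp only [sub_mul, mul_sub, smul_mul_assoc, mul_smul_comm, one_mul, mul_one]
      rw [smul_sub, smul_sub, smul_comm ν μ]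
      abel
    have hσA : σ ((x i * y i - y i * x i) * (x i * y i - y i * x i)) =
        (x i * y i - y i * x i) * (x i * y i - y i * x i) := by
      rw [hσ2, hσh, neg_mul_neg]
    have h1 : LinearMap.trace K V (σ (e * ((x i * y i - y i * x i) * (x i * y i - y i * x i)))) =
        LinearMap.trace K V ((x i * y i - y i * x i) * (x i * y i - y i * x i)) -
        LinearMap.trace K V (e * ((x i * y i - y i * x i) * (x i * y i - y i * x i))) := by
      rw [hσ2, hσA, hσe, mul_sub, mul_one, map_sub, LinearMap.trace_mul_comm K e]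
    have h2 : LinearMap.trace K V ((x i * y i - y i * x i) * (x i * y i - y i * x i)) =
        2 * (finrank K (LinearMap.range (x i)) : K) := by
      rw [opp_sq P, map_add, LinearMap.trace_mul_comm K (y i), trace_xy P, two_mul]
    have h3 : LinearMap.trace K V (e * ((x i * y i - y i * x i) * (x i * y i - y i * x i))) =
        ∑ k, c k * ((q i k : K) * (q i k : K)) := by
      apply trace_diag' v
      intro k
      rw [Module.End.mul_apply, Module.End.mul_apply, hq2, map_smul, hq2, smul_smul, map_smul, hc,
        smul_smul, mul_comm]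
    have h4 : ∑ k, c k * ((q i k : K) * (q i k : K)) =
        ((∑ k ∈ Finset.univ.filter (fun k => c k = 1), (q i k).natAbs : ℕ) : K) := by
      rw [Finset.sum_filter, Nat.cast_sum]
      refine Finset.sum_congr rfl fun k _ => ?_
      rcases hc01 k with h5 | h5
      · simp [h5]
      · rcases hq1 i k with h6 | h6 | h6 <;> simp [h5, h6]
    rw [hσ4, h2, h3, h4] at h1
    have h5 : ((finrank K (LinearMap.range (x i)) : ℕ) : K) =
        ((∑ k ∈ Finset.univ.filter (fun k => c k = 1), (q i k).natAbs : ℕ) : K) := by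
      linear_combination -h1 / 2
    exact Nat.cast_injective h5
  -- the double count
  have hH : ∀ k, Odd (∑ i, (q i k).natAbs) := by
    intro k
    refine odd_abs _ (fun i => hq1 i k) ?_
    refine hodd (v k) _ (v.ne_zero k) ?_
    rw [R.H_eq, LinearMap.sum_apply, Int.cast_sum, Finset.sum_smul]
    exact Finset.sum_congr rfl fun i _ => hq2 i k
  by_contra hcon
  push Not at hcon
  have h1 : Even (∑ i, finrank K (LinearMap.range (x i))) :=
    Finset.even_sum _ fun i _ => Nat.not_odd_iff_even.1 (hcon i)
  have h2 : ∑ i, finrank K (LinearMap.range (x i)) =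
      ∑ k ∈ Finset.univ.filter (fun k => c k = 1), ∑ i, (q i k).natAbs := by
    rw [Finset.sum_comm]
    exact Finset.sum_congr rfl fun i _ => hrank i
  rw [h2, ← Nat.not_odd_iff_even, Finset.odd_sum_iff_odd_card_odd] at h1
  apply h1
  have h3 : (Finset.univ.filter fun k => c k = 1).filter (fun k => Odd (∑ i, (q i k).natAbs)) =
      Finset.univ.filter fun k => c k = 1 :=
    Finset.filter_true_of_mem fun k _ => hH k
  rw [h3, hcard']
  exact hh

end Pool.Agent.Mod4
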