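import Pool.Agent.Mod4.Defs

/-!
# Every root is seen by an idempotent of the torus
-/

set_option autoImplicit false
set_option linter.unusedSectionVars false

namespace Pool.Agent.Mod4

open Module Pool.Agent.CoprimeSig

variable {K V : Type*} [Field K] [CharZero K] [IsAlgClosed K] [AddCommGroup V] [Module K V]
  [FiniteDimensional K V] {g t : Submodule K (End K V)}

/-- a diagonal operator with integer eigenvalues and vanishing trace of its square is zero -/
private theorem eq_zero_of_sq {I : Type*} [Fintype I] (v : Basis I K V) {d : End K V} {q : I → ℤ}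
    (hd : ∀ i, d (v i) = (q i : K) • v i) (htr : LinearMap.trace K V (d * d) = 0) : d = 0 := by
  classical
  have h1 : LinearMap.trace K V (d * d) = ((∑ i, q i * q i : ℤ) : K) := by
    rw [LinearMap.trace_eq_matrix_trace K v, Matrix.trace, Int.cast_sum]
    refine Finset.sum_congr rfl fun i _ => ?_
    rw [Matrix.diag_apply, LinearMap.toMatrix_apply, Module.End.mul_apply, hd, map_smul, hd,
      smul_smul, map_smul, Basis.repr_self, Finsupp.smul_apply, Finsupp.single_eq_same,
      smul_eq_mul, mul_one, Int.cast_mul]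
  rw [h1, Int.cast_eq_zero] at htr
  have h2 := (Finset.sum_eq_zero_iff_of_nonneg fun i _ => mul_self_nonneg (q i)).1 htr
  refine v.ext fun i => ?_
  rw [hd, mul_self_eq_zero.1 (h2 i (Finset.mem_univ i)), Int.cast_zero, zero_smul,
    LinearMap.zero_apply]

/-- root vectors seen by an idempotent commute with those which are not seen -/
theorem good_bad (C : Cartan g t) {α β : End K V → K} {x w : End K V} (hx : IsRoot g t α x)
    (hx0 : x ≠ 0) (hα : ∃ τ ∈ t, α τ ≠ 0) (hbad : ∀ ε ∈ t, ε * ε = ε → α ε = 0)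
    (hw : IsRoot g t β w) {ε : End K V} (hε : ε ∈ t) (hεε : ε * ε = ε) (hβ : β ε ≠ 0) :
    w * x = x * w := by
  by_contra hne
  have hz0 : w * x - x * w ≠ 0 := sub_ne_zero.2 hne
  have hw0 : w ≠ 0 := by
    rintro rfl
    exact hne (by rw [zero_mul, mul_zero])
  have hz : IsRoot g t (fun τ => β τ + α τ) (w * x - x * w) := by
    refine ⟨C.lie w hw.mem x hx.mem, fun τ hτ => ?_⟩
    have e : τ * (w * x - x * w) - (w * x - x * w) * τ =
        (τ * w - w * τ) * x - x * (τ * w - w * τ) + (w * (τ * x - x * τ) -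
          (τ * x - x * τ) * w) := by noncomm_ring
    rw [e, hw.root τ hτ, hx.root τ hτ]
    simp only [smul_mul_assoc, mul_smul_comm, ← smul_sub, ← add_smul]
  have hγε : (fun τ => β τ + α τ) ε ≠ 0 := by
    change β ε + α ε ≠ 0
    rw [hbad ε hε hεε, add_zero]
    exact hβ
  obtain ⟨-, w₁, P⟩ := exists_opp C hw hw0 hε hεε hβ
  obtain ⟨-, z₁, Q⟩ := exists_opp C hz hz0 hε hεε hγε
  have hzero : ∀ {δ : End K V → K} {a b : End K V}, Opp g t δ a b → δ ε ≠ 0 →
      α (a * b - b * a) = 0 := by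
    intro δ a b R hδ
    obtain ⟨h1, h2⟩ := conj_idem R hε hεε
    have h3 := hbad _ h1 h2
    rw [root_sub hx hx0 hε (t.smul_mem _ R.mem), root_smul hx hx0 R.mem, hbad ε hε hεε,
      zero_sub, neg_eq_zero] at h3
    rcases mul_eq_zero.1 h3 with h4 | h4
    · exact absurd h4 hδ
    · exact h4
  have hαh := hzero P hβ
  have hαk := hzero Q hγε
  have hβh := opp_two P hw0
  have hγk := opp_two Q hz0
  have hβk : β ((w * x - x * w) * z₁ - z₁ * (w * x - x * w)) = 2 := by
    rw [← hγk]
    change _ = β _ + α _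
    rw [hαk, add_zero]
  have t1 := trace_h P Q.mem
  have t2 := trace_h Q P.mem
  have t3 := trace_h P P.mem
  have t4 := trace_h Q Q.mem
  rw [hβk] at t1
  rw [hβh] at t3
  rw [hγk] at t4
  change _ = (β _ + α _) * _ at t2
  rw [hβh, hαh, add_zero] at t2
  obtain ⟨h, hh⟩ : ∃ h, h = w * w₁ - w₁ * w := ⟨_, rfl⟩
  obtain ⟨k, hk⟩ : ∃ k, k = (w * x - x * w) * z₁ - z₁ * (w * x - x * w) := ⟨_, rfl⟩
  rw [← hh, ← hk] at t1 t2
  rw [← hh] at t3
  rw [← hk] at t4
  rw [LinearMap.trace_mul_comm, t1] at t2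
  have hm : LinearMap.trace K V (w * w₁) = LinearMap.trace K V ((w * x - x * w) * z₁) :=
    mul_left_cancel₀ two_ne_zero t2
  have hsq : LinearMap.trace K V ((h - k) * (h - k)) = 0 := by
    have e : (h - k) * (h - k) = h * h - h * k - k * h + k * k := by noncomm_ring
    rw [e, map_add, map_sub, map_sub, t3, t4, LinearMap.trace_mul_comm K h k, t1, ← hm]
    ring
  obtain ⟨I, _, v, hv⟩ := C.diag
  obtain ⟨q, -, hq⟩ := opp_eig P v hv
  obtain ⟨p, -, hp⟩ := opp_eig Q v hv
  have hhk : h - k = 0 := by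
    refine eq_zero_of_sq v (q := fun i => q i - p i) (fun i => ?_) hsq
    rw [LinearMap.sub_apply, hh, hk, hq, hp, ← sub_smul, Int.cast_sub]
  obtain ⟨τ, hτ, hατ⟩ := hα
  have u1 := trace_h P hτ
  have u2 := trace_h Q hτ
  rw [← hh, sub_eq_zero.1 hhk] at u1
  rw [← hk, ← hm, u1] at u2
  have u3 := mul_right_cancel₀ (trace_xy_ne P hw0) u2
  apply hατ
  change β τ = β τ + α τ at u3
  exact left_eq_add.1 u3

theorem good (C : Cartan g t) {S : Set (End K V)} (hS : ∀ ε ∈ S, ε ∈ t ∧ ε * ε = ε)
    (hall : ∀ x ∈ g, ∃ a ∈ idl g S, ∃ c : K, x = a + c • 1) {α : End K V → K} {x : End K V}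
    (hx : IsRoot g t α x) (hx0 : x ≠ 0) (hα : ∃ τ ∈ t, α τ ≠ 0) :
    ∃ ε ∈ t, ε * ε = ε ∧ α ε ≠ 0 := by
  by_contra hcon
  push Not at hcon
  -- the bad root vectors
  let B : Set (End K V) := {x | x ≠ 0 ∧ ∃ α : End K V → K, IsRoot g t α x ∧
    (∃ τ ∈ t, α τ ≠ 0) ∧ ∀ ε ∈ t, ε * ε = ε → α ε = 0}
  let Z : Submodule K (End K V) :=
    { carrier := {z | ∀ b ∈ B, z * b = b * z}
      add_mem' := fun {u v} hu hv b hb => by rw [add_mul, mul_add, hu b hb, hv b hb]
      zero_mem' := fun b _ => by rw [zero_mul, mul_zero]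
      smul_mem' := fun c u hu b hb => by rw [smul_mul_assoc, mul_smul_comm, hu b hb] }
  have hZ : ∀ z, z ∈ Z ↔ ∀ b ∈ B, z * b = b * z := fun z => Iff.rfl
  -- `Z` is an ideal
  have hst : ∀ w ∈ g, ∀ z ∈ Z, w * z - z * w ∈ Z := by
    intro w hw
    have h1 := mem_span_roots C hw
    clear hw
    induction h1 using Submodule.span_induction with
    | mem w hw =>
      obtain ⟨β, hw⟩ := hw
      intro z hz
      rw [hZ] at hz ⊢
      intro b hb
      -- it is enough that `z` commutes with `[w, b]`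
      have key : z * (w * b - b * w) = (w * b - b * w) * z → (w * z - z * w) * b =
          b * (w * z - z * w) := by
        intro h
        have h2 := hz b hb
        have e1 : (w * z - z * w) * b = w * (z * b) - z * (w * b) := by noncomm_ring
        have e2 : b * (w * z - z * w) = (b * w) * z - (b * z) * w := by noncomm_ring
        have e3 : z * (w * b) = (w * b) * z - (b * w) * z + z * (b * w) := by
          have e4 : z * (w * b) = z * (w * b - b * w) + z * (b * w) := by noncomm_ring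
          rw [e4, h]
          noncomm_ring
        rw [e1, e2, e3, h2, ← h2]
        rw [h2]
        have e5 : z * (b * w) = b * z * w := by rw [← mul_assoc, h2]
        rw [e5]
        noncomm_ring
      apply key
      by_cases hw0 : w = 0
      · rw [hw0]
        simp
      obtain ⟨hb0, δ, hbδ, hδ1, hδ2⟩ := hb
      by_cases hβ : ∃ τ ∈ t, β τ ≠ 0
      · by_cases hβ2 : ∃ ε ∈ t, ε * ε = ε ∧ β ε ≠ 0
        · obtain ⟨ε, hε, hεε, hβε⟩ := hβ2
          have h3 := good_bad C hbδ hb0 hδ1 hδ2 hw hε hεε hβε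
          rw [h3, sub_self, mul_zero, zero_mul]
        · push Not at hβ2
          have h3 := hz w ⟨hw0, β, hw, hβ, hβ2⟩
          have h4 := hz b ⟨hb0, δ, hbδ, hδ1, hδ2⟩
          have e1 : z * (w * b - b * w) = (z * w) * b - (z * b) * w := by noncomm_ring
          have e2 : (w * b - b * w) * z = w * (b * z) - b * (w * z) := by noncomm_ring
          rw [e1, e2, h3, h4, ← h4, ← h3]
          rw [h3, h4, mul_assoc, h4, mul_assoc, h3]
      · push Not at hβ
        have hwt : w ∈ t := by
          refine C.cent w hw.mem fun τ hτ => ?_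
          have h3 := hw.root τ hτ
          rw [hβ τ hτ, zero_smul, sub_eq_zero] at h3
          exact h3.symm
        rw [hbδ.root w hwt, mul_smul_comm, smul_mul_assoc, hz b ⟨hb0, δ, hbδ, hδ1, hδ2⟩]
    | zero =>
      intro z _
      rw [zero_mul, mul_zero, sub_self]
      exact Z.zero_mem
    | add u v _ _ hu hv =>
      intro z hz
      have e : (u + v) * z - z * (u + v) = (u * z - z * u) + (v * z - z * v) := by noncomm_ring
      rw [e]
      exact Z.add_mem (hu z hz) (hv z hz)
    | smul c u _ hu =>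
      intro z hz
      rw [smul_mul_assoc, mul_smul_comm, ← smul_sub]
      exact Z.smul_mem c (hu z hz)
  have hle : idl g S ≤ Z := by
    refine sInf_le ⟨fun ε hε => ?_, hst⟩
    rw [hZ]
    rintro b ⟨hb0, δ, hbδ, hδ1, hδ2⟩
    have h1 := hbδ.root ε (hS ε hε).1
    rw [hδ2 ε (hS ε hε).1 (hS ε hε).2, zero_smul, sub_eq_zero] at h1
    rw [sub_mul, mul_sub, smul_mul_assoc, mul_smul_comm, h1, one_mul, mul_one]
  obtain ⟨y, hy, hxy⟩ := exists_opp_pair C hx hx0
  have hy0 : y ≠ 0 := by
    rintro rfl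
    exact hxy (by rw [mul_zero, map_zero])
  have hyB : y ∈ B := by
    obtain ⟨τ, hτ, hατ⟩ := hα
    exact ⟨hy0, _, hy, ⟨τ, hτ, neg_ne_zero.2 hατ⟩, fun ε hε hεε => by
      rw [hcon ε hε hεε, neg_zero]⟩
  obtain ⟨a, ha, c, hac⟩ := hall x hx.mem
  have hcomm : x * y = y * x := by
    rw [hac, add_mul, mul_add, (hZ a).1 (hle ha) y hyB, smul_mul_assoc, mul_smul_comm, one_mul,
      mul_one]
  obtain ⟨τ, hτ, hατ⟩ := hα
  have h1 : LinearMap.trace K V (τ * (x * y - y * x)) = α τ * LinearMap.trace K V (x * y) := by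
    have e : LinearMap.trace K V (τ * (x * y - y * x)) =
        LinearMap.trace K V ((τ * x - x * τ) * y) := by
      have e1 : τ * (x * y - y * x) = τ * x * y - τ * y * x := by noncomm_ring
      have e2 : (τ * x - x * τ) * y = τ * x * y - x * (τ * y) := by noncomm_ring
      rw [e1, e2, map_sub, map_sub, LinearMap.trace_mul_comm K (τ * y) x]
    rw [e, hx.root τ hτ, smul_mul_assoc, map_smul, smul_eq_mul]
  rw [hcomm, sub_self, mul_zero, map_zero] at h1
  rcases mul_eq_zero.1 h1.symm with h2 | h2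
  · exact hατ h2
  · rw [← hcomm] at h2
    exact hxy h2

end Pool.Agent.Mod4
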