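import Pool.Agent.Mod4.Defs

/-!
# The highest weight is odd
-/

set_option autoImplicit false
set_option linter.unusedSectionVars false

namespace Pool.Agent.Mod4

open Module Pool.Agent.CoprimeSig

variable {K V : Type*} [Field K] [CharZero K] [IsAlgClosed K] [AddCommGroup V] [Module K V]
  [FiniteDimensional K V] {g t : Submodule K (End K V)}

variable {ι : Type} [Fintype ι] {α : ι → End K V → K} {x y : ι → End K V} {m : ι → ℕ}
  {H E F : End K V}

/-- commutators of similitudes are skew -/
private lemma skew_comm {ψ : V →ₗ[K] V →ₗ[K] K} {D D' : End K V} {μ μ' : K}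
    (h : ∀ u v, ψ (D u) v + ψ u (D v) = μ * ψ u v)
    (h' : ∀ u v, ψ (D' u) v + ψ u (D' v) = μ' * ψ u v) (u v : V) :
    ψ ((D * D' - D' * D) u) v = -ψ u ((D * D' - D' * D) v) := by
  simp only [LinearMap.sub_apply, Module.End.mul_apply, map_sub]
  have e1 := h (D' u) v
  have e2 := h' u (D v)
  have e3 := h' (D u) v
  have e4 := h u (D' v)
  have e5 := h' u v
  have e6 := h u v
  linear_combination e1 - e3 - e2 + e4 + μ * e5 - μ' * e6

theorem odd_top (R : PR g t α x y m H E F) {v : V} {N : ℤ} (hv0 : v ≠ 0)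
    (hv : H v = (N : K) • v) (hEv : E v = 0)
    (hspan : ∀ u : V,
      u ∈ Submodule.span K ({v} ∪ {u | ∃ k : ℕ, 0 < k ∧ H u = ((N - 2 * k : ℤ) : K) • u}))
    {ψ : V →ₗ[K] V →ₗ[K] K} (halt : ∀ x, ψ x x = 0) (hnd : ∀ x, (∀ y, ψ x y = 0) → x = 0)
    (hsim : ∀ D ∈ g, ∃ μ : K, ∀ u v, ψ (D u) v + ψ u (D v) = μ * ψ u v) : Odd N := by
  have h20 : (2 : K) ≠ 0 := two_ne_zero
  have hneg : ∀ a b, ψ a b = -ψ b a := by
    intro a b
    have h1 := halt (a + b)
    simp only [map_add, LinearMap.add_apply, halt, zero_add, add_zero] at h1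
    exact eq_neg_of_add_eq_zero_right h1
  -- skewness
  obtain ⟨μE, hμE⟩ := hsim E R.Eg
  obtain ⟨μF, hμF⟩ := hsim F R.Fg
  have hHs : ∀ u w, ψ (H u) w = -ψ u (H w) := by
    rw [← R.EF]
    exact skew_comm hμE hμF
  have hFs : ∀ u w, ψ (F u) w = -ψ u (F w) := by
    intro u w
    have h1 := skew_comm (D := H) (D' := F) (μ := 0) (μ' := μF)
      (fun u v => by rw [hHs, zero_mul, neg_add_cancel]) hμF u w
    rw [R.HF] at h1
    simp only [LinearMap.smul_apply, map_smul, smul_eq_mul] at h1
    have h2 : (-2 : K) ≠ 0 := neg_ne_zero.2 h20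
    apply mul_left_cancel₀ h2
    rw [h1]
    ring
  have hFpow : ∀ (k : ℕ) (u w : V), ψ ((F ^ k) u) w = (-1) ^ k * ψ u ((F ^ k) w) := by
    intro k
    induction k with
    | zero => intro u w; simp
    | succ k ih =>
      intro u w
      rw [pow_succ', Module.End.mul_apply, hFs, ih, ← Module.End.mul_apply, ← pow_succ, pow_succ,
        ← pow_succ]
      rw [← pow_succ']
      ring
  -- the string
  have hH : ∀ k : ℕ, H ((F ^ k) v) = ((N - 2 * k : ℤ) : K) • (F ^ k) v := by
    intro k
    induction k with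
    | zero => simpa using hv
    | succ k ih =>
      have h1 := LinearMap.congr_fun R.HF ((F ^ k) v)
      simp only [LinearMap.sub_apply, Module.End.mul_apply, LinearMap.smul_apply] at h1
      rw [ih, map_smul] at h1
      rw [pow_succ', Module.End.mul_apply, sub_eq_iff_eq_add.1 h1, ← add_smul]
      congr 1
      push_cast
      ring
  have hstep : ∀ k : ℕ, (F ^ (k + 1)) v = F ((F ^ k) v) := fun k => by
    rw [pow_succ', Module.End.mul_apply]
  have hE : ∀ k : ℕ, E ((F ^ (k + 1)) v) = ((k + 1 : K) * (N - k)) • (F ^ k) v := by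
    intro k
    induction k with
    | zero =>
      have h1 := LinearMap.congr_fun R.EF v
      simp only [LinearMap.sub_apply, Module.End.mul_apply] at h1
      rw [hEv, map_zero, sub_zero, hv] at h1
      simpa using h1
    | succ k ih =>
      have h1 := LinearMap.congr_fun R.EF ((F ^ (k + 1)) v)
      simp only [LinearMap.sub_apply, Module.End.mul_apply] at h1
      rw [ih, map_smul, hH, ← hstep k] at h1
      rw [hstep (k + 1), sub_eq_iff_eq_add.1 h1, ← add_smul]
      congr 1
      push_cast
      ring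
  -- the end of the string
  have hex : ∃ k : ℕ, (F ^ k) v = 0 := by
    by_contra hcon
    push Not at hcon
    have h1 : ∀ k : ℕ, H.HasEigenvalue ((N - 2 * k : ℤ) : K) := fun k =>
      Module.End.hasEigenvalue_of_hasEigenvector
        (Module.End.hasEigenvector_iff.2 ⟨Module.End.mem_eigenspace_iff.2 (hH k), hcon k⟩)
    have h2 : Set.Finite H.HasEigenvalue := Module.End.finite_hasEigenvalue H
    have h3 : Set.range (fun k : ℕ => ((N - 2 * k : ℤ) : K)) ⊆ H.HasEigenvalue := by
      rintro _ ⟨k, rfl⟩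
      exact h1 k
    have h4 : Function.Injective (fun k : ℕ => ((N - 2 * k : ℤ) : K)) := by
      intro a b hab
      have h5 : (N - 2 * a : ℤ) = N - 2 * b := Int.cast_injective (α := K) hab
      omega
    exact (Set.infinite_range_of_injective h4) (h2.subset h3)
  obtain ⟨n, hn0, hn1⟩ : ∃ n : ℕ, (F ^ n) v ≠ 0 ∧ (F ^ (n + 1)) v = 0 := by
    classical
    obtain ⟨k, hk⟩ : ∃ k, Nat.find hex = k + 1 := by
      have h1 : Nat.find hex ≠ 0 := by
        intro h0
        have h2 := Nat.find_spec hex
        rw [h0] at h2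
        exact hv0 (by simpa using h2)
      exact Nat.exists_eq_succ_of_ne_zero h1
    refine ⟨k, Nat.find_min hex (by omega), ?_⟩
    rw [← hk]
    exact Nat.find_spec hex
  have hNn : N = n := by
    have h1 := hE n
    rw [hn1, map_zero] at h1
    have h2 := (smul_eq_zero.1 h1.symm).resolve_right hn0
    have h3 : ((n : K) + 1) ≠ 0 := Nat.cast_add_one_ne_zero n
    have h4 := sub_eq_zero.1 ((mul_eq_zero.1 h2).resolve_left h3)
    have h5 : ((N : ℤ) : K) = ((n : ℤ) : K) := by
      rw [h4, Int.cast_natCast]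
    exact Int.cast_injective h5
  -- the pairing of the ends
  have hpair : ψ v ((F ^ n) v) ≠ 0 := by
    intro h0
    apply hn0
    apply hnd
    intro u
    rw [hneg, neg_eq_zero]
    have h1 := hspan u
    induction h1 using Submodule.span_induction with
    | mem u hu =>
      rcases hu with hu | ⟨k, hk, hu⟩
      · rw [Set.mem_singleton_iff.1 hu]
        exact h0
      · have h2 := hHs u ((F ^ n) v)
        rw [hu, hH, map_smul, LinearMap.smul_apply, map_smul, smul_eq_mul, smul_eq_mul] at h2
        have h3 : ((-2 * k : ℤ) : K) * ψ u ((F ^ n) v) = 0 := by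
          have h4 : (((N - 2 * k : ℤ) : K) + ((N - 2 * n : ℤ) : K)) = ((-2 * k : ℤ) : K) := by
            rw [hNn]
            push_cast
            ring
          rw [← h4, add_mul, h2]
          ring
        refine (mul_eq_zero.1 h3).resolve_left (Int.cast_ne_zero.2 ?_)
        omega
    | zero => rw [map_zero, LinearMap.zero_apply]
    | add a b _ _ ha hb => rw [map_add, LinearMap.add_apply, ha, hb, add_zero]
    | smul c a _ ha => rw [map_smul, LinearMap.smul_apply, ha, smul_zero]
  have h1 := hFpow n v v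
  rw [hneg] at h1
  have h2 : ((-1 : K) ^ n + 1) * ψ v ((F ^ n) v) = 0 := by
    rw [add_mul, one_mul, ← h1]
    ring
  have h3 := (mul_eq_zero.1 h2).resolve_right hpair
  rw [hNn]
  rcases Nat.even_or_odd n with h | h
  · exfalso
    rw [h.neg_one_pow] at h3
    have h4 : (1 : K) + 1 = 2 := by norm_num
    rw [h4] at h3
    exact h20 h3
  · exact_mod_cast h

theorem odd_weights {N : ℤ} (hN : Odd N) {v : V} (hv : H v = (N : K) • v)
    (hspan : ∀ u : V,
      u ∈ Submodule.span K ({v} ∪ {u | ∃ k : ℕ, 0 < k ∧ H u = ((N - 2 * k : ℤ) : K) • u}))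
    {u : V} (hu0 : u ≠ 0) {μ : ℤ} (hu : H u = (μ : K) • u) : Odd μ := by
  by_contra hcon
  rw [Int.not_odd_iff_even] at hcon
  have h1 := Module.End.eigenspaces_iSupIndep H (μ : K)
  have h2 : (⊤ : Submodule K V) ≤ ⨆ j, ⨆ (_ : j ≠ (μ : K)), H.eigenspace j := by
    intro w _
    refine Submodule.span_le.2 ?_ (hspan w)
    have key : ∀ (ν : ℤ) (w : V), Odd ν → H w = (ν : K) • w →
        w ∈ ⨆ j, ⨆ (_ : j ≠ (μ : K)), H.eigenspace j := by
      intro ν w hν hw
      have h3 : (ν : K) ≠ (μ : K) := by
        intro h4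
        have h5 : ν = μ := Int.cast_injective h4
        rw [h5] at hν
        exact (Int.not_odd_iff_even.2 hcon) hν
      exact Submodule.mem_iSup_of_mem _ (Submodule.mem_iSup_of_mem h3
        (Module.End.mem_eigenspace_iff.2 hw))
    rintro w (hw | ⟨k, -, hw⟩)
    · rw [Set.mem_singleton_iff.1 hw]
      exact key N v hN hv
    · refine key (N - 2 * k) w ?_ hw
      exact hN.sub_even (even_two_mul _)
  exact hu0 (Submodule.disjoint_def.1 h1 u (Module.End.mem_eigenspace_iff.2 hu)
    (h2 Submodule.mem_top))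

end Pool.Agent.Mod4
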