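import Pool.Agent.Mod4.Defs

/-!
# Positive roots and the principal subalgebra
-/

set_option autoImplicit false
set_option linter.unusedSectionVars false

namespace Pool.Agent.Mod4

open Module Pool.Agent.CoprimeSig

variable {K V : Type*} [Field K] [CharZero K] [IsAlgClosed K] [AddCommGroup V] [Module K V]
  [FiniteDimensional K V] {g t : Submodule K (End K V)}

/-- a simple root takes the value `2` on the sum of the positive coroots -/
private theorem sum_pos_coroot {n : ℕ} {M N : Type*} [AddCommGroup M] [Module K M]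
    [AddCommGroup N] [Module K N] (P : RootPairing (Fin n) K M N) [P.IsCrystallographic]
    [P.IsReduced] (b : P.Base) (S : Finset (Fin n)) (hS : ∀ i, i ∈ S ↔ b.IsPos i) {j : Fin n}
    (hj : j ∈ b.support) : P.toLinearMap (P.root j) (∑ i ∈ S, P.coroot i) = 2 := by
  classical
  have hjS : j ∈ S := (hS j).2 (b.isPos_of_mem_support hj)
  have hneg : ¬ b.IsPos (P.reflectionPerm j j) := by
    rw [RootPairing.Base.isPos_iff]
    have h1 := b.height_reflectionPerm_self j
    have h2 : b.height (P.reflectionPerm j j) = -b.height j := h1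
    rw [h2, RootPairing.Base.height_one_of_mem_support hj]
    norm_num
  have hmem : ∀ i, i ∈ S.erase j → P.reflectionPerm j i ∈ S.erase j := by
    intro i hi
    rw [Finset.mem_erase, hS] at hi ⊢
    refine ⟨fun h => ?_, hi.2.reflectionPerm hj hi.1⟩
    apply hneg
    have h3 : i = P.reflectionPerm j j := by
      conv_lhs => rw [← P.reflectionPerm_self j i, h]
    rw [← h3]
    exact hi.2
  have hmem' : ∀ i, i ∈ S.erase j ↔ P.reflectionPerm j i ∈ S.erase j := by
    intro i
    refine ⟨hmem i, fun h => ?_⟩
    have := hmem _ h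
    rwa [P.reflectionPerm_self] at this
  have hfix : P.coreflection j (∑ i ∈ S.erase j, P.coroot i) = ∑ i ∈ S.erase j, P.coroot i := by
    rw [map_sum]
    refine Finset.sum_equiv (P.reflectionPerm j) hmem' (fun i _ => ?_)
    rw [P.coroot_reflectionPerm]
  rw [P.coreflection_apply, sub_eq_self] at hfix
  have hne : P.coroot j ≠ 0 := P.flip.ne_zero j
  have h0 := (smul_eq_zero.1 hfix).resolve_right hne
  rw [← Finset.add_sum_erase S _ hjS, map_add]
  have h1 : P.toLinearMap (P.root j) (∑ i ∈ S.erase j, P.coroot i) = 0 := h0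
  rw [h1, add_zero]
  exact P.root_coroot_two j

theorem exists_pr [Nontrivial V] (C : Cartan g t) (hone : (1 : End K V) ∈ t) {n : ℕ}
    {P : RootPairing (Fin n) K (Dual K (tz t)) (tz t)} {α : Fin n → End K V → K}
    {x y : Fin n → End K V} (R : RD g t P α x y) (h1 : P.IsRootSystem) (h2 : P.IsCrystallographic)
    (h3 : P.IsReduced) :
    ∃ (ι : Type) (_ : Fintype ι) (α : ι → End K V → K) (x y : ι → End K V) (m : ι → ℕ)
      (H E F : End K V), PR g t α x y m H E F := by
  classical
  obtain ⟨b⟩ := RootPairing.nonempty_base P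
  -- the values of the roots on `t` are determined by the values on `tz t`
  have hdim : (finrank K V : K) ≠ 0 := by
    rw [Nat.cast_ne_zero]
    exact finrank_pos.ne'
  have htz : ∀ τ ∈ t, ∃ τ' : tz t, ∀ i, α i τ = P.root i τ' := by
    intro τ hτ
    have hm : τ - (LinearMap.trace K V τ / finrank K V) • (1 : End K V) ∈ tz t := by
      refine ⟨t.sub_mem hτ (t.smul_mem _ hone), ?_⟩
      change LinearMap.trace K V _ = 0
      rw [map_sub, map_smul, LinearMap.trace_one, smul_eq_mul, div_mul_cancel₀ _ hdim, sub_self]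
    refine ⟨⟨_, hm⟩, fun i => ?_⟩
    rw [R.root]
    have hα1 : α i 1 = 0 := by
      have h := (R.opp i).rx.root 1 hone
      rw [one_mul, mul_one, sub_self] at h
      exact (smul_eq_zero.1 h.symm).resolve_right (R.ne i)
    change α i τ = α i (τ - (LinearMap.trace K V τ / finrank K V) • (1 : End K V))
    rw [root_sub (R.opp i).rx (R.ne i) hτ (t.smul_mem _ hone),
      root_smul (R.opp i).rx (R.ne i) hone, hα1, mul_zero, sub_zero]
  -- the sum of the positive coroots
  let S : Finset (Fin n) := Finset.univ.filter b.IsPos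
  have hS : ∀ i, i ∈ S ↔ b.IsPos i := fun i => by simp [S]
  let H' : tz t := ∑ i ∈ S, P.coroot i
  have hH't : (H' : End K V) ∈ t := H'.2.1
  have hH' : (H' : End K V) = ∑ i : {i : Fin n // b.IsPos i},
      (x i * y i - y i * x i) := by
    rw [← Finset.sum_subtype S hS (fun i => x i * y i - y i * x i)]
    simp only [H', Submodule.coe_sum, R.coroot]
  have hval0 : ∀ j ∈ b.support, P.root j H' = 2 := by
    intro j hj
    rw [← R.pair]
    exact sum_pos_coroot P b S hS hj
  have hval : ∀ i, P.root i H' = 2 * (b.height i : K) := by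
    intro i
    obtain ⟨f, -, -, hf⟩ := b.exists_root_eq_sum_int i
    rw [RootPairing.Base.height_eq_sum hf, hf, LinearMap.sum_apply, Int.cast_sum,
      Finset.mul_sum]
    refine Finset.sum_congr rfl (fun j hj => ?_)
    rw [LinearMap.smul_apply, hval0 j hj, zsmul_eq_mul, mul_comm]
  have hvalα : ∀ i, α i H' = 2 * (b.height i : K) := by
    intro i
    rw [← R.root, hval]
  have hvalα0 : ∀ j ∈ b.support, α j H' = 2 := by
    intro j hj
    rw [← R.root, hval0 j hj]
  -- commutation of opposite simple root vectors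
  have hcomm : ∀ i ∈ b.support, ∀ j ∈ b.support, i ≠ j → x i * y j = y j * x i := by
    intro i hi j hj hij
    by_contra hne
    have hw0 : x i * y j - y j * x i ≠ 0 := sub_ne_zero.2 hne
    have hw : IsRoot g t (fun τ => α i τ - α j τ) (x i * y j - y j * x i) := by
      refine ⟨C.lie _ (R.opp i).rx.mem _ (R.opp j).ry.mem, fun τ hτ => ?_⟩
      have e1 := (R.opp i).rx.root τ hτ
      have e2 : τ * y j - y j * τ = -(α j τ • y j) := by
        rw [(R.opp j).ry.root τ hτ, neg_smul]
      have e3 : τ * (x i * y j - y j * x i) - (x i * y j - y j * x i) * τ =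
          (τ * x i - x i * τ) * y j - y j * (τ * x i - x i * τ) +
            (x i * (τ * y j - y j * τ) - (τ * y j - y j * τ) * x i) := by
        noncomm_ring
      rw [e3, e1, e2, mul_neg, neg_mul, mul_smul_comm, mul_smul_comm, smul_mul_assoc,
        smul_mul_assoc, sub_smul, smul_sub, smul_sub]
      abel
    by_cases hz : ∃ τ ∈ t, α i τ - α j τ ≠ 0
    · obtain ⟨k, hk⟩ := R.all _ _ hw hw0 hz
      apply b.sub_notMem_range_root hi hj
      refine ⟨k, ?_⟩
      ext τ
      rw [LinearMap.sub_apply, R.root, R.root, R.root]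
      exact (hk τ τ.2.1).symm
    · push Not at hz
      apply hij
      apply P.root.injective
      ext τ
      rw [R.root, R.root]
      exact sub_eq_zero.1 (hz τ τ.2.1)
  -- the principal subalgebra
  let c : b.support → K := fun j => b.toCoweightBasis.repr H' j
  have hc : (H' : End K V) = ∑ j : b.support, c j • (x j * y j - y j * x j) := by
    have e1 := b.toCoweightBasis.sum_repr H'
    have e2 := congrArg (Subtype.val) e1
    rw [← e2, Submodule.coe_sum]
    refine Finset.sum_congr rfl (fun j _ => ?_)
    rw [Submodule.coe_smul, RootPairing.Base.toCoweightBasis_apply, R.coroot]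
  refine ⟨{i : Fin n // b.IsPos i}, inferInstance, fun i => α i, fun i => x i, fun i => y i,
    fun i => (b.height i).toNat, (H' : End K V), ∑ j : b.support, x j,
    ∑ j : b.support, c j • y j, ?_⟩
  refine ⟨fun i => R.opp i, fun i => R.ne i, hH', fun i => ?_, fun i => ?_, fun z hz => ?_,
    ?_, ?_, ?_, ?_, ?_⟩
  · have := i.2
    rw [RootPairing.Base.isPos_iff] at this
    omega
  · have h4 := i.2
    rw [RootPairing.Base.isPos_iff] at h4
    change α i H' = 2 * (((b.height i).toNat : ℕ) : K)
    rw [hvalα]
    congr 1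
    rw [← Int.cast_natCast, Int.toNat_of_nonneg h4.le]
  · have h5 := mem_span_roots C hz
    refine (Submodule.span_le.2 ?_) h5
    rintro w ⟨β, hβ⟩
    by_cases hw0 : w = 0
    · rw [hw0]
      exact Submodule.zero_mem _
    by_cases hb : ∃ τ ∈ t, β τ ≠ 0
    · obtain ⟨i, hi⟩ := R.all β w hβ hw0 hb
      apply Submodule.mem_sup_right
      by_cases hp : b.IsPos i
      · apply Submodule.mem_sup_left
        apply Submodule.subset_span
        exact ⟨⟨i, hp⟩, hβ.mem, fun τ hτ => by rw [hβ.root τ hτ, hi τ hτ]⟩
      · apply Submodule.mem_sup_right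
        apply Submodule.subset_span
        have hp' : b.IsPos (P.reflectionPerm i i) := (RootPairing.Base.IsPos.or_neg b i).resolve_left hp
        refine ⟨⟨P.reflectionPerm i i, hp'⟩, hβ.mem, fun τ hτ => ?_⟩
        obtain ⟨τ', hτ'⟩ := htz τ hτ
        have e : P.root (P.reflectionPerm i i) = - P.root i := by
          rw [P.root_reflectionPerm, P.reflection_apply_self]
        rw [hβ.root τ hτ, hi τ hτ, hτ' i]
        change _ = (- α (P.reflectionPerm i i) τ) • w
        rw [hτ' (P.reflectionPerm i i), e, LinearMap.neg_apply, neg_neg]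
    · push Not at hb
      apply Submodule.mem_sup_left
      apply C.cent w hβ.mem
      intro τ hτ
      have e := hβ.root τ hτ
      rw [hb τ hτ, zero_smul] at e
      exact (sub_eq_zero.1 e).symm
  · exact Submodule.sum_mem _ (fun j _ => (R.opp j).rx.mem)
  · exact Submodule.sum_mem _ (fun j _ => Submodule.smul_mem _ _ (R.opp j).ry.mem)
  · rw [Finset.sum_mul_sum, Finset.sum_mul_sum, hc, Finset.sum_comm (γ := b.support)]
    rw [← Finset.sum_sub_distrib]
    refine Finset.sum_congr rfl (fun j _ => ?_)
    rw [← Finset.sum_sub_distrib, Finset.sum_eq_single j]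
    · rw [mul_smul_comm, smul_mul_assoc, smul_sub]
    · intro i _ hij
      have hne : (i : Fin n) ≠ j := fun h => hij (Subtype.ext h)
      rw [mul_smul_comm, smul_mul_assoc, hcomm i i.2 j j.2 hne, sub_self]
    · intro h
      exact absurd (Finset.mem_univ j) h
  · rw [Finset.mul_sum, Finset.sum_mul, ← Finset.sum_sub_distrib, Finset.smul_sum]
    refine Finset.sum_congr rfl (fun j _ => ?_)
    rw [(R.opp j).rx.root _ hH't, hvalα0 j j.2]
  · rw [Finset.mul_sum, Finset.sum_mul, ← Finset.sum_sub_distrib, Finset.smul_sum]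
    refine Finset.sum_congr rfl (fun j _ => ?_)
    rw [mul_smul_comm, smul_mul_assoc, ← smul_sub, (R.opp j).ry.root _ hH't, hvalα0 j j.2,
      smul_comm]

end Pool.Agent.Mod4
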