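import Pool.Agent.Mod4.Defs
import Pool.Agent.TypeIV.Single

/-!
# A nilpotent element of small rank
-/

set_option autoImplicit false
set_option linter.unusedSectionVars false

namespace Pool.Agent.Mod4

open Module Pool.Agent.CoprimeSig

variable {K V : Type*} [Field K] [CharZero K] [IsAlgClosed K] [AddCommGroup V] [Module K V]
  [FiniteDimensional K V] {g t : Submodule K (End K V)}

private theorem rankLe_left (a b : End K V) :
    finrank K (LinearMap.range (a * b)) ≤ finrank K (LinearMap.range a) := by
  apply Submodule.finrank_mono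
  rintro _ ⟨v, rfl⟩
  exact ⟨b v, rfl⟩

private theorem rankLe_right (a b : End K V) :
    finrank K (LinearMap.range (a * b)) ≤ finrank K (LinearMap.range b) := by
  have h : LinearMap.range (a * b) = (LinearMap.range b).map a := by
    rw [Module.End.mul_eq_comp, LinearMap.range_comp]
  rw [h]
  exact Submodule.finrank_map_le _ _

theorem exists_rank_le [Nontrivial V] (hlie : ∀ x ∈ g, ∀ y ∈ g, x * y - y * x ∈ g)
    (hsc : ∀ z : End K V, (∀ x ∈ g, z * x = x * z) → ∃ c : K, z = c • 1) {e : End K V}
    (he : e ∈ g) (hee : e * e = e) (h0 : e ≠ 0) (h1 : e ≠ 1) :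
    ∃ N ∈ g, N ≠ 0 ∧ N * N = 0 ∧ finrank K (LinearMap.range N) ≤ finrank K (LinearMap.range e) := by
  have hex : ∃ x ∈ g, e * x ≠ x * e := by
    by_contra hcon
    push Not at hcon
    obtain ⟨c, hc⟩ := hsc e hcon
    have h2 : (c * c) • (1 : End K V) = c • (1 : End K V) := by
      have h3 := hee
      rw [hc, smul_mul_smul_comm, one_mul] at h3
      exact h3
    have h3 : c * c = c := smul_left_injective K (one_ne_zero : (1 : End K V) ≠ 0) h2
    have h4 : c * (c - 1) = 0 := by linear_combination h3
    rcases mul_eq_zero.1 h4 with h5 | h5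
    · exact h0 (by rw [hc, h5, zero_smul])
    · exact h1 (by rw [hc, sub_eq_zero.1 h5, one_smul])
  obtain ⟨x, hx, hne⟩ := hex
  have heg : ∀ x ∈ g, e * x - x * e ∈ g := fun x hx => hlie e he x hx
  have hE1 : (1 - e) * e = 0 := by rw [sub_mul, one_mul, hee, sub_self]
  rcases TypeIV.comp_ne hne with h | h
  · refine ⟨e * x * (1 - e), OddRank.deg_one_mem hee heg hx, h, ?_, ?_⟩
    · calc e * x * (1 - e) * (e * x * (1 - e)) = e * x * ((1 - e) * e) * x * (1 - e) := by
            simp only [mul_assoc]
        _ = 0 := by rw [hE1, mul_zero, zero_mul, zero_mul]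
    · rw [mul_assoc]
      exact rankLe_left _ _
  · rw [sub_sub_cancel] at h
    refine ⟨(1 - e) * x * e, OddRank.deg_neg_mem hee heg hx, h, ?_, ?_⟩
    · calc (1 - e) * x * e * ((1 - e) * x * e) = (1 - e) * x * (e * (1 - e)) * x * e := by
            simp only [mul_assoc]
        _ = 0 := by
            rw [mul_sub, mul_one, hee, sub_self, mul_zero, zero_mul, zero_mul]
    · exact rankLe_right _ _

end Pool.Agent.Mod4
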