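import Pool.Agent.Mod4.Defs

/-!
# The root system
-/

set_option autoImplicit false
set_option linter.unusedSectionVars false

namespace Pool.Agent.Mod4

open Module Pool.Agent.CoprimeSig

variable {K V : Type*} [Field K] [CharZero K] [IsAlgClosed K] [AddCommGroup V] [Module K V]
  [FiniteDimensional K V] {g t : Submodule K (End K V)}

private theorem dim_ne [Nontrivial V] : (finrank K V : K) ≠ 0 :=
  Nat.cast_ne_zero.2 finrank_pos.ne'

private theorem mem_tz {τ : End K V} : τ ∈ tz t ↔ τ ∈ t ∧ LinearMap.trace K V τ = 0 :=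
  Iff.rfl

/-- the projection to trace zero -/
private noncomputable def pr (τ : End K V) : End K V :=
  τ - (LinearMap.trace K V τ / (finrank K V : K)) • 1

private theorem pr_mem [Nontrivial V] (hone : (1 : End K V) ∈ t) {τ : End K V} (hτ : τ ∈ t) :
    pr τ ∈ tz t := by
  refine mem_tz.2 ⟨t.sub_mem hτ (t.smul_mem _ hone), ?_⟩
  rw [pr, map_sub, map_smul, LinearMap.trace_one, smul_eq_mul, div_mul_cancel₀ _ dim_ne, sub_self]

private theorem pr_eq {τ : End K V} (hτ : τ ∈ tz t) : pr τ = τ := by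
  rw [pr, (mem_tz.1 hτ).2, zero_div, zero_smul, sub_zero]

private theorem pr_comm (τ x : End K V) : pr τ * x - x * pr τ = τ * x - x * τ := by
  rw [pr, sub_mul, mul_sub, smul_mul_assoc, one_mul, mul_smul_comm, mul_one]
  abel

/-- the set of roots -/
private def Rt (g t : Submodule K (End K V)) : Set (Dual K (tz t)) :=
  {φ | φ ≠ 0 ∧ ∃ x ∈ g, x ≠ 0 ∧ ∀ τ : tz t, (τ : End K V) * x - x * τ = φ τ • x}

open Classical in
/-- extension to all endomorphisms -/
private noncomputable def ex [Nontrivial V] (hone : (1 : End K V) ∈ t) (φ : Dual K (tz t)) :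
    End K V → K := fun τ => if h : τ ∈ t then φ ⟨pr τ, pr_mem hone h⟩ else 0

private theorem ex_mem [Nontrivial V] (hone : (1 : End K V) ∈ t) (φ : Dual K (tz t))
    {τ : End K V} (hτ : τ ∈ t) : ex hone φ τ = φ ⟨pr τ, pr_mem hone hτ⟩ := by
  rw [ex, dif_pos hτ]

private theorem ex_tz [Nontrivial V] (hone : (1 : End K V) ∈ t) (φ : Dual K (tz t))
    (τ : tz t) : ex hone φ τ = φ τ := by
  rw [ex_mem hone φ (mem_tz.1 τ.2).1]
  congr 1
  exact Subtype.ext (pr_eq τ.2)

private theorem ex_root [Nontrivial V] (hone : (1 : End K V) ∈ t) (φ : Dual K (tz t))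
    {x : End K V} (hx : x ∈ g) (h : ∀ τ : tz t, (τ : End K V) * x - x * τ = φ τ • x) :
    IsRoot g t (ex hone φ) x := by
  refine ⟨hx, fun τ hτ => ?_⟩
  rw [ex_mem hone φ hτ, ← h ⟨pr τ, pr_mem hone hτ⟩, pr_comm]

/-- the functional of a root -/
private noncomputable def dl {β : End K V → K} {z : End K V} (h : IsRoot g t β z)
    (hz : z ≠ 0) : Dual K (tz t) where
  toFun τ := β τ
  map_add' τ τ' := root_add h hz (mem_tz.1 τ.2).1 (mem_tz.1 τ'.2).1
  map_smul' c τ := root_smul h hz (mem_tz.1 τ.2).1 c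

private theorem dl_apply {β : End K V → K} {z : End K V} (h : IsRoot g t β z)
    (hz : z ≠ 0) (τ : tz t) : dl h hz τ = β τ := rfl

private theorem root_pr [Nontrivial V] (hone : (1 : End K V) ∈ t) {β : End K V → K}
    {z : End K V} (h : IsRoot g t β z) (hz : z ≠ 0) {τ : End K V} (hτ : τ ∈ t) :
    β (pr τ) = β τ := by
  have h1 : β 1 = 0 := by
    have h2 := h.root 1 hone
    rw [one_mul, mul_one, sub_self] at h2
    exact ((smul_eq_zero.1 h2.symm).resolve_right hz)
  rw [pr, root_sub h hz hτ (t.smul_mem _ hone), root_smul h hz hone, h1, mul_zero, sub_zero]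

private theorem dl_mem [Nontrivial V] (hone : (1 : End K V) ∈ t) {β : End K V → K}
    {z : End K V} (h : IsRoot g t β z) (hz : z ≠ 0) (hne : ∃ τ ∈ t, β τ ≠ 0) :
    dl h hz ∈ Rt g t := by
  refine ⟨?_, z, h.mem, hz, fun τ => h.root τ (mem_tz.1 τ.2).1⟩
  obtain ⟨τ, hτ, hβ⟩ := hne
  intro h0
  apply hβ
  rw [← root_pr hone h hz hτ]
  exact LinearMap.congr_fun h0 ⟨pr τ, pr_mem hone hτ⟩

/-- an element killed by all roots is zero -/
private theorem eq_zero_of_kill [Nontrivial V] (C : Cartan g t) (hone : (1 : End K V) ∈ t)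
    (hsc : ∀ z : End K V, (∀ x ∈ g, z * x = x * z) → ∃ c : K, z = c • 1)
    (τ : tz t) (h : ∀ φ ∈ Rt g t, φ τ = 0) : τ = 0 := by
  have hτ := (mem_tz.1 τ.2).1
  have hcomm : ∀ x ∈ g, (τ : End K V) * x = x * τ := by
    intro x hx
    have h1 := mem_span_roots C hx
    clear hx
    induction h1 using Submodule.span_induction with
    | mem z hz =>
      obtain ⟨β, hβ⟩ := hz
      by_cases hz0 : z = 0
      · rw [hz0, mul_zero, zero_mul]
      · rw [← sub_eq_zero, hβ.root _ hτ]
        by_cases hne : ∃ τ ∈ t, β τ ≠ 0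
        · have h2 := h _ (dl_mem hone hβ hz0 hne)
          rw [dl_apply] at h2
          rw [h2, zero_smul]
        · push Not at hne
          rw [hne _ hτ, zero_smul]
    | zero => rw [mul_zero, zero_mul]
    | add a b _ _ ha hb => rw [mul_add, add_mul, ha, hb]
    | smul c a _ ha => rw [mul_smul_comm, smul_mul_assoc, ha]
  obtain ⟨c, hc⟩ := hsc _ hcomm
  have h1 := (mem_tz.1 τ.2).2
  rw [hc, map_smul, LinearMap.trace_one, smul_eq_mul] at h1
  have h2 : c = 0 := (mul_eq_zero.1 h1).resolve_right dim_ne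
  apply Subtype.ext
  rw [hc, h2, zero_smul]
  rfl

private theorem span_eq_top [Nontrivial V] (C : Cartan g t) (hone : (1 : End K V) ∈ t)
    (hsc : ∀ z : End K V, (∀ x ∈ g, z * x = x * z) → ∃ c : K, z = c • 1) :
    Submodule.span K (Rt g t) = ⊤ := by
  rw [← Subspace.dualCoannihilator_dualAnnihilator_eq (W := Submodule.span K (Rt g t)),
    ← Submodule.dualAnnihilator_bot]
  congr 1
  rw [eq_bot_iff]
  intro τ hτ
  rw [Submodule.mem_dualCoannihilator] at hτ
  rw [Submodule.mem_bot]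
  exact eq_zero_of_kill C hone hsc τ fun φ hφ => hτ φ (Submodule.subset_span hφ)

private theorem finite_Rt [Nontrivial V] (C : Cartan g t) (hone : (1 : End K V) ∈ t) :
    (Rt g t).Finite := by
  classical
  obtain ⟨I, _, v, hv⟩ := C.diag
  choose! e he using hv
  have h1 : ((fun φ : Dual K (tz t) => (φ : tz t → K)) '' Rt g t).Finite := by
    refine Set.Finite.subset (Set.finite_range fun p : I × I =>
      fun τ : tz t => e τ p.1 - e τ p.2) ?_
    rintro _ ⟨φ, ⟨hφ, x, hx, hx0, h⟩, rfl⟩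
    obtain ⟨i, j, hij⟩ := root_diff (ex_root hone φ hx h) hx0 v
      (fun τ hτ i => ⟨e τ i, he τ hτ i⟩)
    refine ⟨(i, j), ?_⟩
    funext τ
    have hτ := (mem_tz.1 τ.2).1
    have h2 := hij τ hτ _ _ (he τ hτ i) (he τ hτ j)
    rw [ex_tz] at h2
    exact h2.symm
  exact Set.Finite.of_finite_image h1 (DFunLike.coe_injective.injOn)

private theorem opp_mem_tz {α : End K V → K} {x y : End K V} (P : Opp g t α x y) :
    x * y - y * x ∈ tz t :=
  mem_tz.2 ⟨P.mem, by rw [map_sub, LinearMap.trace_mul_comm, sub_self]⟩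

private theorem int_val {α β : End K V → K} {x y z : End K V} (C : Cartan g t)
    (P : Opp g t α x y) (hz : IsRoot g t β z) (hz0 : z ≠ 0) :
    ∃ q : ℤ, (-2 ≤ q ∧ q ≤ 2) ∧ (q : K) = β (x * y - y * x) := by
  obtain ⟨I, _, v, hv⟩ := C.diag
  obtain ⟨q, hq, hqv⟩ := opp_eig P v hv
  obtain ⟨i, j, hij⟩ := root_diff hz hz0 v hv
  refine ⟨q i - q j, ?_, ?_⟩
  · have := hq i
    have := hq j
    omega
  · rw [hij _ P.mem _ _ (hqv i) (hqv j), Int.cast_sub]

theorem exists_rd [Nontrivial V] (C : Cartan g t) (hone : (1 : End K V) ∈ t)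
    (hsc : ∀ z : End K V, (∀ x ∈ g, z * x = x * z) → ∃ c : K, z = c • 1)
    (hopp : ∀ (α : End K V → K) (x : End K V), IsRoot g t α x → x ≠ 0 → (∃ τ ∈ t, α τ ≠ 0) →
      ∃ y, Opp g t α x y) :
    ∃ (n : ℕ) (P : RootPairing (Fin n) K (Dual K (tz t)) (tz t)) (α : Fin n → End K V → K)
      (x y : Fin n → End K V), RD g t P α x y ∧ P.IsRootSystem ∧ P.IsCrystallographic ∧
        P.IsReduced := by
  classical
  have hfin : Finite (Rt g t) := finite_Rt C hone
  obtain ⟨n, ⟨en⟩⟩ := Finite.exists_equiv_fin (Rt g t)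
  let rt : Fin n → Dual K (tz t) := fun i => (en.symm i : Dual K (tz t))
  have hrt : ∀ i, rt i ∈ Rt g t := fun i => (en.symm i).2
  have hrange : Set.range rt = Rt g t := by
    ext φ
    constructor
    · rintro ⟨i, rfl⟩
      exact hrt i
    · intro hφ
      exact ⟨en ⟨φ, hφ⟩, by simp [rt]⟩
  have hinj : Function.Injective rt := Subtype.val_injective.comp en.symm.injective
  choose hne x hxg hx0 hxr using hrt
  let α : Fin n → End K V → K := fun i => ex hone (rt i)
  have hα : ∀ i, IsRoot g t (α i) (x i) := fun i => ex_root hone _ (hxg i) (hxr i)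
  have hαne : ∀ i, ∃ τ ∈ t, α i τ ≠ 0 := by
    intro i
    obtain ⟨τ, hτ⟩ := not_forall.1 fun h => hne i (LinearMap.ext h)
    exact ⟨τ, (mem_tz.1 τ.2).1, by rw [show α i τ = rt i τ from ex_tz hone _ τ]; exact hτ⟩
  choose y P using fun i => hopp (α i) (x i) (hα i) (hx0 i) (hαne i)
  let h : Fin n → tz t := fun i => ⟨x i * y i - y i * x i, opp_mem_tz (P i)⟩
  have hαt : ∀ i (τ : tz t), α i τ = rt i τ := fun i τ => ex_tz hone _ τ
  have htwo : ∀ i, rt i (h i) = 2 := by
    intro i
    rw [← hαt]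
    exact opp_two (P i) (hx0 i)
  have hhinj : Function.Injective h := by
    intro i j hij
    have hij' : x i * y i - y i * x i = x j * y j - y j * x j := congrArg Subtype.val hij
    apply hinj
    ext τ
    have hτ := (mem_tz.1 τ.2).1
    have e1 : ∀ τ ∈ t, α i τ * LinearMap.trace K V (x i * y i) =
        α j τ * LinearMap.trace K V (x j * y j) := by
      intro τ hτ
      rw [← trace_h (P i) hτ, ← trace_h (P j) hτ, hij']
    have e2 := e1 _ (P i).mem
    rw [opp_two (P i) (hx0 i), hij', opp_two (P j) (hx0 j)] at e2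
    have e3 : LinearMap.trace K V (x i * y i) = LinearMap.trace K V (x j * y j) :=
      mul_left_cancel₀ two_ne_zero e2
    have e4 := e1 τ hτ
    rw [e3] at e4
    have e5 := mul_right_cancel₀ (trace_xy_ne (P j) (hx0 j)) e4
    rwa [hαt, hαt] at e5
  have hint : ∀ i j, ∃ q : ℤ, (-2 ≤ q ∧ q ≤ 2) ∧ (q : K) = rt i (h j) := by
    intro i j
    rw [← hαt]
    exact int_val C (P j) (hα i) (hx0 i)
  have hrefl : ∀ i, Set.MapsTo
      (Module.preReflection (rt i) ((LinearMap.id : Dual K (tz t) →ₗ[K] Dual K (tz t)).flip (h i)))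
      (Set.range rt) (Set.range rt) := by
    intro i φ hφ
    rw [hrange] at hφ ⊢
    obtain ⟨hφ0, z, hz, hz0, hzr⟩ := hφ
    rw [Module.preReflection_apply, LinearMap.flip_apply, LinearMap.id_apply]
    have hzroot := ex_root hone φ hz hzr
    refine ⟨?_, wl (x i) (y i) * z * wlInv (x i) (y i), ?_, conj_ne (P i) hz0, fun τ => ?_⟩
    · intro h0
      have h1 := LinearMap.congr_fun h0 (h i)
      rw [LinearMap.sub_apply, LinearMap.smul_apply, htwo, smul_eq_mul, LinearMap.zero_apply] at h1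
      have h2 : φ (h i) = 0 := by linear_combination -h1
      rw [h2, zero_smul, sub_zero] at h0
      exact hφ0 h0
    · exact (conj_root C.lie (P i) hzroot hz0).mem
    · rw [(conj_root C.lie (P i) hzroot hz0).root τ (mem_tz.1 τ.2).1, ex_tz, hαt,
        LinearMap.sub_apply, LinearMap.smul_apply, smul_eq_mul]
      rw [show ex hone φ (x i * y i - y i * x i) = φ (h i) from ex_tz hone φ (h i), mul_comm]
  have hspan : Submodule.span K (Set.range rt) = ⊤ := by
    rw [hrange]
    exact span_eq_top C hone hsc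
  have hint' : ∀ i j, ∃ z : ℤ, (z : K) = (LinearMap.id : Dual K (tz t) →ₗ[K] Dual K (tz t))
      ((⟨rt, hinj⟩ : Fin n ↪ Dual K (tz t)) i) ((⟨h, hhinj⟩ : Fin n ↪ tz t) j) := by
    intro i j
    obtain ⟨q, -, hq⟩ := hint i j
    exact ⟨q, hq⟩
  let Q : RootPairing (Fin n) K (Dual K (tz t)) (tz t) :=
    RootPairing.mk'' LinearMap.id ⟨rt, hinj⟩ ⟨h, hhinj⟩ htwo hrefl hspan
  have hroot : ∀ i, Q.root i = rt i := fun i => rfl
  refine ⟨n, Q, α, x, y, ⟨P, hx0, fun φ τ => rfl, fun i τ => (hαt i τ).symm, fun i => rfl, ?_⟩,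
    RootPairing.isRootSystem_mk'' hint', ⟨hint'⟩, ⟨?_⟩⟩
  · intro β z hz hz0 hne
    obtain ⟨i, hi⟩ : dl hz hz0 ∈ Set.range rt := by
      rw [hrange]
      exact dl_mem hone hz hz0 hne
    refine ⟨i, fun τ hτ => ?_⟩
    rw [← root_pr hone hz hz0 hτ]
    change _ = ex hone (rt i) τ
    rw [ex_mem hone _ hτ, hi, dl_apply]
  · intro i j hij
    rw [hroot, hroot] at hij ⊢
    rw [LinearIndependent.pair_iff' (hne i)] at hij
    push Not at hij
    obtain ⟨c, hc⟩ := hij
    obtain ⟨p, hp, hp'⟩ := hint j i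
    obtain ⟨q, hq, hq'⟩ := hint i j
    have e1 : (p : K) = 2 * c := by
      rw [hp', ← hc, LinearMap.smul_apply, htwo, smul_eq_mul, mul_comm]
    have e2 : (2 : K) = c * q := by
      rw [hq', ← htwo j]
      conv_lhs => rw [← hc]
      rw [LinearMap.smul_apply, smul_eq_mul]
    have e3 : p * q = 4 := by
      have : (p : K) * q = 4 := by linear_combination q * e1 - 2 * e2
      exact_mod_cast this
    have e4 : p = 2 ∨ p = -2 := by
      obtain ⟨hp1, hp2⟩ := hp
      obtain ⟨hq1, hq2⟩ := hq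
      interval_cases p <;> omega
    rcases e4 with rfl | rfl
    · left
      have : c = 1 := by
        have h2 : (2 : K) * c = 2 * 1 := by rw [← e1]; norm_num
        exact mul_left_cancel₀ two_ne_zero h2
      rw [← hc, this, one_smul]
    · right
      have : c = -1 := by
        have h2 : (2 : K) * c = 2 * (-1) := by rw [← e1]; norm_num
        exact mul_left_cancel₀ two_ne_zero h2
      rw [← hc, this, neg_one_smul, neg_neg]

end Pool.Agent.Mod4
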