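import Pool.Agent.Mod4.Ideal
import Pool.Agent.PrimePow.Main

/-!
# An idempotent lies in an ideal or commutes with it
-/

set_option autoImplicit false
set_option linter.unusedSectionVars false

namespace Pool.Agent.Mod4

open Module Pool.Agent.CoprimeSig

variable {K V : Type*} [Field K] [CharZero K] [IsAlgClosed K] [AddCommGroup V] [Module K V]
  [FiniteDimensional K V] {g t : Submodule K (End K V)}

private theorem scalar_zero [Nontrivial V]
    (hirr : ∀ U : Submodule K V, (∀ a ∈ g, ∀ w ∈ U, a w ∈ U) → U = ⊥ ∨ U = ⊤)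
    {z : End K V} (hz : ∀ x ∈ g, z * x = x * z) (ht : LinearMap.trace K V z = 0) : z = 0 := by
  obtain ⟨c, rfl⟩ := PrimePow.schur_irr hirr z hz
  rw [map_smul, LinearMap.trace_one, smul_eq_mul] at ht
  rcases mul_eq_zero.1 ht with h | h
  · rw [h, zero_smul]
  · rw [Nat.cast_eq_zero] at h
    exact absurd h (finrank_pos).ne'

theorem comm_split [Nontrivial V] (hlie : ∀ a ∈ g, ∀ b ∈ g, a * b - b * a ∈ g)
    (hirr : ∀ U : Submodule K V, (∀ a ∈ g, ∀ w ∈ U, a w ∈ U) → U = ⊥ ∨ U = ⊤)
    {s : Submodule K (End K V)} (hsg : s ≤ g) (hs : ∀ x ∈ g, ∀ z ∈ s, x * z - z * x ∈ s)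
    (htr : ∀ a ∈ s, LinearMap.trace K V a = 0) {e : End K V} (he : (2 : K) • e - 1 ∈ g)
    (hee : e * e = e) (het : LinearMap.trace K V ((2 : K) • e - 1) = 0) :
    (2 : K) • e - 1 ∈ s ∨ ∀ y ∈ s, e * y = y * e := by
  have hhh : ((2 : K) • e - 1) * ((2 : K) • e - 1) = 1 := by
    have h1 : ((2 : K) • e - 1) * ((2 : K) • e - 1) = (4 : K) • (e * e) - (4 : K) • e + 1 := by
      simp only [sub_mul, mul_sub, smul_mul_assoc, mul_smul_comm, smul_smul, mul_one, one_mul]
      module
    rw [h1, hee]
    module
  obtain ⟨a, ha, b, hb, hab, hbs⟩ := split_ideal hlie hirr hsg hs htr _ he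
  have hsplit := split_ideal hlie hirr hsg hs htr
  rw [hab] at hhh
  -- the main identity
  have key : ∀ z ∈ s, ∀ w ∈ g, (∀ y ∈ s, w * y = y * w) →
      (z * a - a * z) * (w * b - b * w) = 0 := by
    intro z hz w hw hws
    have c1 : b * z = z * b := hbs z hz
    have c2 : b * a = a * b := hbs a ha
    have c3 : w * z = z * w := hws z hz
    have c4 : w * a = a * w := hws a ha
    have h1 : z * ((a + b) * (a + b)) - ((a + b) * (a + b)) * z = 0 := by
      rw [hhh, mul_one, one_mul, sub_self]
    have h2 : z * ((a + b) * (a + b)) - ((a + b) * (a + b)) * z =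
        (z * (a * a) - a * a * z) + (2 : K) • ((z * a - a * z) * b) := by
      have e1 : (a + b) * (a + b) = a * a + (2 : K) • (a * b) + b * b := by
        rw [add_mul, mul_add, mul_add, c2, two_smul]
        abel
      have e2 : a * b * z = a * z * b := by rw [mul_assoc, c1, mul_assoc]
      have e3 : b * b * z = z * (b * b) := by rw [mul_assoc, c1, ← mul_assoc, c1, mul_assoc]
      rw [e1, mul_add, mul_add, add_mul, add_mul, mul_smul_comm, smul_mul_assoc, e2, e3, sub_mul,
        smul_sub, mul_assoc z a b]
      abel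
    rw [h2] at h1
    have h3 : w * ((z * (a * a) - a * a * z) + (2 : K) • ((z * a - a * z) * b)) -
        ((z * (a * a) - a * a * z) + (2 : K) • ((z * a - a * z) * b)) * w = 0 := by
      rw [h1, mul_zero, zero_mul, sub_zero]
    have h4 : w * ((z * (a * a) - a * a * z) + (2 : K) • ((z * a - a * z) * b)) -
        ((z * (a * a) - a * a * z) + (2 : K) • ((z * a - a * z) * b)) * w =
        (2 : K) • ((z * a - a * z) * (w * b - b * w)) := by
      have f1 : w * (z * (a * a) - a * a * z) = (z * (a * a) - a * a * z) * w := by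
        have g1 : w * (z * (a * a)) = z * (a * a) * w := by
          rw [← mul_assoc, c3, mul_assoc z w, ← mul_assoc w a a, c4, mul_assoc a w a, c4]
          simp only [mul_assoc]
        have g2 : w * (a * a * z) = a * a * z * w := by
          rw [← mul_assoc, ← mul_assoc, c4, mul_assoc a w a, c4, mul_assoc, mul_assoc, mul_assoc,
            c3]
          simp only [mul_assoc]
        rw [mul_sub, sub_mul, g1, g2]
      have f2 : w * (z * a - a * z) = (z * a - a * z) * w := by
        have g1 : w * (z * a) = z * a * w := by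
          rw [← mul_assoc, c3, mul_assoc, c4, mul_assoc]
        have g2 : w * (a * z) = a * z * w := by
          rw [← mul_assoc, c4, mul_assoc, c3, mul_assoc]
        rw [mul_sub, sub_mul, g1, g2]
      rw [mul_add, add_mul, f1, mul_smul_comm, smul_mul_assoc, ← mul_assoc w, f2, mul_sub, smul_sub,
        mul_assoc, mul_assoc]
      abel
    rw [h4] at h3
    rcases smul_eq_zero.1 h3 with h5 | h5
    · exact absurd h5 two_ne_zero
    · exact h5
  by_cases hq : ∃ w ∈ g, (∀ y ∈ s, w * y = y * w) ∧ w * b - b * w ≠ 0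
  · right
    obtain ⟨w0, hw0, hw0s, hq0⟩ := hq
    -- the ideal `P`
    let P : Set (End K V) := {p | p ∈ s ∧ ∀ w ∈ g, (∀ y ∈ s, w * y = y * w) →
      p * (w * b - b * w) = 0}
    have hP1 : ∀ x ∈ g, ∀ p ∈ P, x * p - p * x ∈ P := by
      rintro x hx p ⟨hp, hp'⟩
      refine ⟨hs x hx p hp, fun w hw hws => ?_⟩
      obtain ⟨xs, hxs, xu, hxu, rfl, hxu'⟩ := hsplit x hx
      have c1 : xu * p = p * xu := hxu' p hp
      have c2 : xs * (w * b - b * w) = (w * b - b * w) * xs := by
        have g1 : xs * w = w * xs := (hws xs hxs).symm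
        have g2 : xs * b = b * xs := (hbs xs hxs).symm
        rw [mul_sub, sub_mul, ← mul_assoc, ← mul_assoc, g1, g2, mul_assoc, mul_assoc, g1, g2,
          mul_assoc, mul_assoc]
      have e1 : (xs + xu) * p - p * (xs + xu) = xs * p - p * xs := by
        rw [add_mul, mul_add, c1]
        abel
      rw [e1, sub_mul, mul_assoc, mul_assoc, hp' w hw hws, c2, ← mul_assoc, hp' w hw hws,
        mul_zero, zero_mul, sub_zero]
    let X : Submodule K V :=
      { carrier := {v | ∀ p ∈ P, p v = 0}
        add_mem' := by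
          intro v v' hv hv' p hp
          rw [map_add, hv p hp, hv' p hp, add_zero]
        zero_mem' := fun p _ => map_zero p
        smul_mem' := by
          intro c v hv p hp
          rw [map_smul, hv p hp, smul_zero] }
    have hX : X = ⊤ := by
      rcases hirr X (fun x hx v hv p hp => by
        have h1 := hv _ (hP1 x hx p hp)
        rw [LinearMap.sub_apply, Module.End.mul_apply, Module.End.mul_apply, hv p hp, map_zero,
          zero_sub, neg_eq_zero] at h1
        exact h1) with h | h
      · exfalso
        apply hq0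
        refine LinearMap.ext fun v => ?_
        have h1 : (w0 * b - b * w0) v ∈ X := by
          intro p hp
          rw [← Module.End.mul_apply, hp.2 w0 hw0 hw0s, LinearMap.zero_apply]
        rw [h, Submodule.mem_bot] at h1
        rw [h1, LinearMap.zero_apply]
      · exact h
    have hP0 : ∀ p ∈ P, p = 0 := by
      intro p hp
      refine LinearMap.ext fun v => ?_
      have h1 : v ∈ X := by rw [hX]; exact Submodule.mem_top
      rw [h1 p hp, LinearMap.zero_apply]
    have has : ∀ z ∈ s, z * a - a * z = 0 := by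
      intro z hz
      exact hP0 _ ⟨hs z (hsg hz) a ha, fun w hw hws => key z hz w hw hws⟩
    have hag : ∀ x ∈ g, a * x = x * a := by
      intro x hx
      obtain ⟨xs, hxs, xu, hxu, rfl, hxu'⟩ := hsplit x hx
      rw [mul_add, add_mul, hxu' a ha, sub_eq_zero.1 (has xs hxs)]
    have ha0 : a = 0 := scalar_zero hirr hag (htr a ha)
    intro y hy
    have h1 : ((2 : K) • e - 1) * y = y * ((2 : K) • e - 1) := by
      rw [hab, ha0, zero_add]
      exact hbs y hy
    have h2 : (2 : K) • (e * y - y * e) = 0 := by
      rw [sub_mul, mul_sub, one_mul, mul_one, smul_mul_assoc, mul_smul_comm] at h1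
      rw [smul_sub, sub_eq_zero]
      exact sub_left_injective h1
    rcases smul_eq_zero.1 h2 with h3 | h3
    · exact absurd h3 two_ne_zero
    · exact sub_eq_zero.1 h3
  · left
    push Not at hq
    have hbg : ∀ x ∈ g, b * x = x * b := by
      intro x hx
      obtain ⟨xs, hxs, xu, hxu, rfl, hxu'⟩ := hsplit x hx
      have h1 : xu * b = b * xu := sub_eq_zero.1 (hq xu hxu hxu')
      rw [mul_add, add_mul, h1, hbs xs hxs]
    have hbt : LinearMap.trace K V b = 0 := by
      have h1 : LinearMap.trace K V (a + b) = 0 := by rw [← hab]; exact het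
      rw [map_add, htr a ha, zero_add] at h1
      exact h1
    have hb0 : b = 0 := scalar_zero hirr hbg hbt
    rw [hab, hb0, add_zero]
    exact ha

end Pool.Agent.Mod4
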