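import Pool.Agent.Mod4.Defs

/-!
# The highest weight vector
-/

set_option autoImplicit false
set_option linter.unusedSectionVars false

namespace Pool.Agent.Mod4

open Module Pool.Agent.CoprimeSig

variable {K V : Type*} [Field K] [CharZero K] [IsAlgClosed K] [AddCommGroup V] [Module K V]
  [FiniteDimensional K V] {g t : Submodule K (End K V)}

variable {ι : Type} [Fintype ι] {α : ι → End K V → K} {x y : ι → End K V} {m : ι → ℕ}
  {H E F : End K V}

private theorem top_H_mem (R : PR g t α x y m H E F) : H ∈ t := by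
  rw [R.H_eq]
  exact t.sum_mem fun i _ => (R.opp i).mem

/-- a root vector moves the eigenvalue of `H` -/
private theorem top_move {c d : K} {w : End K V} (h : H * w - w * H = d • w) {u : V}
    (hu : H u = c • u) : H (w u) = (c + d) • w u := by
  have h1 := LinearMap.congr_fun h u
  rw [LinearMap.sub_apply, Module.End.mul_apply, Module.End.mul_apply, hu, map_smul,
    LinearMap.smul_apply] at h1
  rw [add_smul, ← h1]
  abel

theorem exists_top [Nontrivial V] (R : PR g t α x y m H E F) (C : Cartan g t) :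
    ∃ (v : V) (N : ℤ), v ≠ 0 ∧ H v = (N : K) • v ∧ E v = 0 ∧ (∀ τ ∈ t, ∃ c : K, τ v = c • v) ∧
      ∀ i w, IsRoot g t (α i) w → w v = 0 := by
  classical
  obtain ⟨I, hI, b, hb⟩ := C.diag
  have hne : Nonempty I := b.index_nonempty
  choose q _ hq using fun j => opp_eig (R.opp j) b hb
  set Q : I → ℤ := fun i => ∑ j, q j i with hQ
  have hHb : ∀ i, H (b i) = (Q i : K) • b i := by
    intro i
    rw [R.H_eq, LinearMap.sum_apply, hQ]
    simp only [hq]
    rw [← Finset.sum_smul, Int.cast_sum]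
  have hco : ∀ (u : V) (i : I), b.repr (H u) i = (Q i : K) * b.repr u i := by
    intro u i
    have h1 : b.coord i ∘ₗ H = (Q i : K) • b.coord i := by
      refine b.ext fun k => ?_
      simp only [LinearMap.comp_apply, hHb, map_smul, LinearMap.smul_apply, Basis.coord_apply,
        Basis.repr_self, smul_eq_mul]
      by_cases hk : k = i
      · rw [hk]
      · rw [Finsupp.single_eq_of_ne (Ne.symm hk), mul_zero, mul_zero]
    exact LinearMap.congr_fun h1 u
  have heig : ∀ (u : V) (c : K), u ≠ 0 → H u = c • u → ∃ i, c = (Q i : K) := by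
    intro u c hu hc
    obtain ⟨i, hi⟩ : ∃ i, b.repr u i ≠ 0 := by
      by_contra hcon
      push Not at hcon
      apply hu
      apply b.repr.injective
      ext i
      rw [hcon, map_zero, Finsupp.zero_apply]
    refine ⟨i, ?_⟩
    have h1 := hco u i
    rw [hc, map_smul, Finsupp.smul_apply, smul_eq_mul] at h1
    exact mul_right_cancel₀ hi h1
  obtain ⟨i₀, hi₀⟩ := Finite.exists_max Q
  have hzero : ∀ (w : End K V) (k : ℤ), 0 < k → H * w - w * H = (k : K) • w → w (b i₀) = 0 := by
    intro w k hk hw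
    by_contra hcon
    obtain ⟨i, hi⟩ := heig _ _ hcon (top_move hw (hHb i₀))
    rw [← Int.cast_add] at hi
    have h1 : Q i₀ + k = Q i := Int.cast_injective hi
    have h2 := hi₀ i
    omega
  refine ⟨b i₀, Q i₀, b.ne_zero i₀, hHb i₀, ?_, fun τ hτ => hb τ hτ i₀, fun i w hw => ?_⟩
  · refine hzero E 2 (by norm_num) ?_
    rw [R.HE]
    norm_num
  · refine hzero w (2 * (m i : ℤ)) (by have := R.mpos i; omega) ?_
    rw [hw.root H (top_H_mem R), R.val i]
    push_cast
    rfl

theorem gen_top (R : PR g t α x y m H E F) (C : Cartan g t)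
    (hirr : ∀ U : Submodule K V, (∀ a ∈ g, ∀ w ∈ U, a w ∈ U) → U = ⊥ ∨ U = ⊤) {v : V} {N : ℤ}
    (hv0 : v ≠ 0) (hv : H v = (N : K) • v) (hvt : ∀ τ ∈ t, ∃ c : K, τ v = c • v)
    (hvα : ∀ i w, IsRoot g t (α i) w → w v = 0) (u : V) :
    u ∈ Submodule.span K ({v} ∪ {u | ∃ k : ℕ, 0 < k ∧ H u = ((N - 2 * k : ℤ) : K) • u}) := by
  classical
  set X : Submodule K V := sInf {U | v ∈ U ∧ ∀ i w, IsRoot g t (fun τ => -α i τ) w →
    ∀ u ∈ U, w u ∈ U} with hX
  have hXle : ∀ Y : Submodule K V, v ∈ Y → (∀ i w, IsRoot g t (fun τ => -α i τ) w →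
      ∀ u ∈ Y, w u ∈ Y) → X ≤ Y := fun Y h1 h2 => sInf_le ⟨h1, h2⟩
  have hvX : v ∈ X := by
    rw [hX, Submodule.mem_sInf]
    intro U hU
    exact hU.1
  have hwX : ∀ i w, IsRoot g t (fun τ => -α i τ) w → ∀ u ∈ X, w u ∈ X := by
    intro i w hw u hu
    rw [hX, Submodule.mem_sInf] at hu ⊢
    intro U hU
    exact hU.2 i w hw u (hu U hU)
  -- `X` is stable under `t`
  have hXt : ∀ τ ∈ t, ∀ u ∈ X, τ u ∈ X := by
    have h1 : X ≤ X ⊓ ⨅ τ : t, X.comap (τ : End K V) := by
      refine hXle _ ⟨hvX, ?_⟩ ?_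
      · rw [SetLike.mem_coe, Submodule.mem_iInf]
        rintro ⟨τ, hτ⟩
        obtain ⟨c, hc⟩ := hvt τ hτ
        change τ v ∈ X
        rw [hc]
        exact X.smul_mem c hvX
      · rintro i w hw u ⟨hu1, hu2⟩
        refine ⟨hwX i w hw u hu1, ?_⟩
        rw [SetLike.mem_coe, Submodule.mem_iInf] at hu2 ⊢
        rintro ⟨τ, hτ⟩
        change τ (w u) ∈ X
        have e : τ (w u) = w (τ u) + (-α i τ) • w u := by
          have h2 := LinearMap.congr_fun (hw.root τ hτ) u
          rw [LinearMap.sub_apply, Module.End.mul_apply, Module.End.mul_apply,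
            LinearMap.smul_apply] at h2
          rw [← h2]
          abel
        rw [e]
        exact X.add_mem (hwX i w hw _ (hu2 ⟨τ, hτ⟩)) (X.smul_mem _ (hwX i w hw _ hu1))
    intro τ hτ u hu
    have h2 := (h1 hu).2
    rw [SetLike.mem_coe, Submodule.mem_iInf] at h2
    exact h2 ⟨τ, hτ⟩
  -- `X` is stable under `g`
  have hXg : ∀ z ∈ g, ∀ u ∈ X, z u ∈ X := by
    have h1 : X ≤ X ⊓ ⨅ z : g, X.comap (z : End K V) := by
      refine hXle _ ⟨hvX, ?_⟩ ?_
      · rw [SetLike.mem_coe, Submodule.mem_iInf]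
        rintro ⟨z, hz⟩
        change z v ∈ X
        have h2 : t ⊔ (Submodule.span K {w | ∃ i, IsRoot g t (α i) w} ⊔
            Submodule.span K {w | ∃ i, IsRoot g t (fun τ => -α i τ) w}) ≤
            X.comap (LinearMap.applyₗ (R := K) (M₂ := V) v) := by
          refine sup_le ?_ (sup_le ?_ ?_)
          · intro τ hτ
            exact hXt τ hτ v hvX
          · rw [Submodule.span_le]
            rintro w ⟨i, hw⟩
            change w v ∈ X
            rw [hvα i w hw]
            exact X.zero_mem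
          · rw [Submodule.span_le]
            rintro w ⟨i, hw⟩
            exact hwX i w hw v hvX
        exact h2 (R.span z hz)
      · rintro i w hw u ⟨hu1, hu2⟩
        refine ⟨hwX i w hw u hu1, ?_⟩
        rw [SetLike.mem_coe, Submodule.mem_iInf] at hu2 ⊢
        rintro ⟨z, hz⟩
        change z (w u) ∈ X
        have e : z (w u) = w (z u) + (z * w - w * z) u := by
          rw [LinearMap.sub_apply, Module.End.mul_apply, Module.End.mul_apply]
          abel
        rw [e]
        exact X.add_mem (hwX i w hw _ (hu2 ⟨z, hz⟩)) (hu2 ⟨_, C.lie z hz w hw.mem⟩)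
    intro z hz u hu
    have h2 := (h1 hu).2
    rw [SetLike.mem_coe, Submodule.mem_iInf] at h2
    exact h2 ⟨z, hz⟩
  have hXtop : X = ⊤ := by
    rcases hirr X hXg with h | h
    · rw [h, Submodule.mem_bot] at hvX
      exact absurd hvX hv0
    · exact h
  have hS : X ≤ Submodule.span K ({v} ∪ {u | ∃ k : ℕ, 0 < k ∧
      H u = ((N - 2 * k : ℤ) : K) • u}) := by
    refine hXle _ (Submodule.subset_span (Or.inl rfl)) ?_
    intro i w hw
    have h1 : H * w - w * H = ((-(2 * (m i : ℤ)) : ℤ) : K) • w := by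
      rw [hw.root H (top_H_mem R), R.val i]
      push_cast
      rfl
    have h2 : Submodule.span K ({v} ∪ {u | ∃ k : ℕ, 0 < k ∧ H u = ((N - 2 * k : ℤ) : K) • u}) ≤
        (Submodule.span K ({v} ∪ {u | ∃ k : ℕ, 0 < k ∧
          H u = ((N - 2 * k : ℤ) : K) • u})).comap w := by
      rw [Submodule.span_le]
      rintro u (rfl | ⟨k, hk, hu⟩)
      · refine Submodule.subset_span (Or.inr ⟨m i, R.mpos i, ?_⟩)
        rw [top_move h1 hv, ← Int.cast_add]
        rfl
      · refine Submodule.subset_span (Or.inr ⟨k + m i, by omega, ?_⟩)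
        rw [top_move h1 hu, ← Int.cast_add]
        congr 2
        push_cast
        ring
    exact fun u hu => h2 hu
  exact hS (by rw [hXtop]; exact Submodule.mem_top)

end Pool.Agent.Mod4
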