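import Pool.Agent.Mod4.Defs

/-!
# Tori containing commuting idempotents
-/

set_option autoImplicit false
set_option linter.unusedSectionVars false

namespace Pool.Agent.Mod4

open Module Pool.Agent.CoprimeSig

variable {K V : Type*} [Field K] [CharZero K] [IsAlgClosed K] [AddCommGroup V] [Module K V]
  [FiniteDimensional K V] {g t : Submodule K (End K V)}

open Algebra in
/-- a commuting space of semisimple elements of `g` lies in a torus -/
private theorem exists_cartan_start (hlie : ∀ x ∈ g, ∀ y ∈ g, x * y - y * x ∈ g)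
    (hnd : ∀ x ∈ g, (∀ y ∈ g, LinearMap.trace K V (x * y) = 0) → x = 0)
    (hsc : ∀ z : End K V, (∀ x ∈ g, z * x = x * z) → ∃ c : K, z = c • 1)
    (hone : (1 : End K V) ∈ g) {t₀ : Submodule K (End K V)} (h0g : t₀ ≤ g)
    (h0c : ∀ x ∈ t₀, ∀ y ∈ t₀, x * y = y * x) (h0s : ∀ x ∈ t₀, x.IsSemisimple) :
    ∃ t : Submodule K (End K V), Cartan g t ∧ t₀ ≤ t := by
  obtain ⟨t, ⟨htg, het, hcomm, hss⟩, hmax⟩ := (wellFounded_gt (α := Submodule K (End K V))).has_min
    {t | t ≤ g ∧ t₀ ≤ t ∧ (∀ x ∈ t, ∀ y ∈ t, x * y = y * x) ∧ ∀ x ∈ t, x.IsSemisimple}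
    ⟨t₀, h0g, le_rfl, h0c, h0s⟩
  have T := PrimePow.tor_of_ss hcomm hss
  have hdec : ∀ x ∈ g, (∀ y ∈ t, x * y = y * x) →
      ∃ n s : End K V, IsNilpotent n ∧ s ∈ t ∧ x = n + s := by
    intro x hx hxt
    obtain ⟨n, hn, s, hs, hnn, hsss, hxe⟩ := x.exists_isNilpotent_isSemisimple
    refine ⟨n, s, hnn, ?_, hxe⟩
    have hc : Commute n s :=
      commute_of_mem_adjoin_singleton_of_commute hs (commute_of_mem_adjoin_self hn).symm
    have hsg : s ∈ g := PrimePow.ss_mem hlie hnd hsc hone hc hnn hsss (hxe ▸ hx)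
    have hst : ∀ y ∈ t, s * y = y * s := by
      intro y hy
      exact (commute_of_mem_adjoin_singleton_of_commute hs (show Commute y x from
        (hxt y hy).symm)).symm
    by_contra hsnt
    refine hmax (t ⊔ K ∙ s) ⟨sup_le htg ((Submodule.span_singleton_le_iff_mem _ _).2 hsg),
      het.trans le_sup_left, ?_, ?_⟩ ?_
    · intro a ha b hb
      obtain ⟨a₁, ha₁, a₂, ha₂, rfl⟩ := Submodule.mem_sup.1 ha
      obtain ⟨b₁, hb₁, b₂, hb₂, rfl⟩ := Submodule.mem_sup.1 hb
      obtain ⟨c, rfl⟩ := Submodule.mem_span_singleton.1 ha₂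
      obtain ⟨d, rfl⟩ := Submodule.mem_span_singleton.1 hb₂
      simp only [mul_add, add_mul, smul_mul_assoc, mul_smul_comm, hcomm a₁ ha₁ b₁ hb₁,
        hst a₁ ha₁, hst b₁ hb₁, smul_add, smul_smul, mul_comm d c]
      abel
    · intro a ha
      obtain ⟨a₁, ha₁, a₂, ha₂, rfl⟩ := Submodule.mem_sup.1 ha
      obtain ⟨c, rfl⟩ := Submodule.mem_span_singleton.1 ha₂
      refine Module.End.IsSemisimple.add_of_commute ?_ (hss a₁ ha₁)
        (Module.End.IsSemisimple_smul c hsss)
      exact ((show Commute s a₁ from hst a₁ ha₁).smul_left c).symm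
    · refine lt_of_le_of_ne le_sup_left fun h => hsnt ?_
      rw [h]
      exact Submodule.mem_sup_right (Submodule.mem_span_singleton_self s)
  refine ⟨t, ⟨T, hlie, hnd, htg, ?_⟩, het⟩
  intro x hx hxt
  obtain ⟨n, s, hnn, hs, hxe⟩ := hdec x hx hxt
  have hn : n ∈ g := by
    have h1 : n = x - s := by rw [hxe, add_sub_cancel_right]
    rw [h1]
    exact g.sub_mem hx (htg hs)
  have hnt : ∀ y ∈ t, n * y = y * n := by
    intro y hy
    have h1 : n = x - s := by rw [hxe, add_sub_cancel_right]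
    rw [h1, sub_mul, mul_sub, hxt y hy, hcomm s hs y hy]
  have hn0 : n = 0 := by
    apply hnd n hn
    intro y hy
    have h1 := PrimePow.span_roots T htg hlie hy
    clear hy
    induction h1 using Submodule.span_induction with
    | mem z hz =>
      obtain ⟨α, hz, hα⟩ := hz
      by_cases h0 : ∀ τ ∈ t, α τ = 0
      · refine PrimePow.trace_cent hlie hdec hn hnt hnn hz fun y hy => ?_
        have h2 := hα y hy
        rw [h0 y hy, zero_smul, sub_eq_zero] at h2
        exact h2.symm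
      · push Not at h0
        obtain ⟨τ, hτ, hτ0⟩ := h0
        have h2 : z = (α τ)⁻¹ • (τ * z - z * τ) := by
          rw [hα τ hτ, smul_smul, inv_mul_cancel₀ hτ0, one_smul]
        have h3 : LinearMap.trace K V (n * (τ * z - z * τ)) = 0 := by
          rw [mul_sub, map_sub, ← mul_assoc, hnt τ hτ, mul_assoc, LinearMap.trace_mul_comm,
            mul_assoc, sub_self]
        rw [h2, mul_smul_comm, map_smul, h3, smul_zero]
    | zero => rw [mul_zero, map_zero]
    | add a b _ _ ha hb => rw [mul_add, map_add, ha, hb, add_zero]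
    | smul c a _ ha => rw [mul_smul_comm, map_smul, ha, smul_zero]
  rw [hxe, hn0, zero_add]
  exact hs

private theorem idem_ss {e : End K V} (hee : e * e = e) : e.IsSemisimple := by
  refine Module.End.isSemisimple_of_squarefree_aeval_eq_zero
    (p := (Polynomial.X - Polynomial.C 0) * (Polynomial.X - Polynomial.C 1)) ?_ ?_
  · refine (Polynomial.Separable.mul Polynomial.separable_X_sub_C
      Polynomial.separable_X_sub_C ?_).squarefree
    exact Polynomial.isCoprime_X_sub_C_of_isUnit_sub (by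
      rw [zero_sub]
      exact isUnit_one.neg)
  · rw [map_mul, map_sub, map_sub, Polynomial.aeval_X, Polynomial.aeval_C, Polynomial.aeval_C,
      map_zero, map_one, sub_zero, mul_sub, mul_one, hee, sub_self]

private theorem span_comm_left {S : Set (End K V)} {y : End K V}
    (h : ∀ ε ∈ S, ε * y = y * ε) {x : End K V} (hx : x ∈ Submodule.span K S) : x * y = y * x := by
  induction hx using Submodule.span_induction with
  | mem z hz => exact h z hz
  | zero => rw [zero_mul, mul_zero]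
  | add a b _ _ ha hb => rw [add_mul, mul_add, ha, hb]
  | smul c a _ ha => rw [smul_mul_assoc, mul_smul_comm, ha]

private theorem span_comm {S : Set (End K V)} (h : ∀ ε ∈ S, ∀ ε' ∈ S, ε * ε' = ε' * ε)
    {x y : End K V} (hx : x ∈ Submodule.span K S) (hy : y ∈ Submodule.span K S) :
    x * y = y * x :=
  span_comm_left (fun ε hε => (span_comm_left (fun ε' hε' => h ε' hε' ε hε) hy).symm) hx

private theorem span_ss {S : Set (End K V)} (hS : ∀ ε ∈ S, ε * ε = ε)
    (h : ∀ ε ∈ S, ∀ ε' ∈ S, ε * ε' = ε' * ε) {x : End K V} (hx : x ∈ Submodule.span K S) :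
    x.IsSemisimple := by
  induction hx using Submodule.span_induction with
  | mem z hz => exact idem_ss (hS z hz)
  | zero => exact Module.End.isSemisimple_zero
  | add a b ha' hb' ha hb => exact Module.End.IsSemisimple.add_of_commute (span_comm h ha' hb') ha hb
  | smul c a _ ha => exact Module.End.IsSemisimple_smul c ha

theorem exists_cartan_set (hlie : ∀ x ∈ g, ∀ y ∈ g, x * y - y * x ∈ g)
    (hnd : ∀ x ∈ g, (∀ y ∈ g, LinearMap.trace K V (x * y) = 0) → x = 0)
    (hsc : ∀ z : End K V, (∀ x ∈ g, z * x = x * z) → ∃ c : K, z = c • 1)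
    (hone : (1 : End K V) ∈ g) {S : Set (End K V)} (hS : ∀ ε ∈ S, ε ∈ g ∧ ε * ε = ε)
    (hcomm : ∀ ε ∈ S, ∀ ε' ∈ S, ε * ε' = ε' * ε) :
    ∃ t : Submodule K (End K V), Cartan g t ∧ ∀ ε ∈ S, ε ∈ t := by
  obtain ⟨t, ht, ht0⟩ := exists_cartan_start hlie hnd hsc hone
    (t₀ := Submodule.span K S) (Submodule.span_le.2 fun ε hε => (hS ε hε).1)
    (fun x hx y hy => span_comm hcomm hx hy)
    (fun x hx => span_ss (fun ε hε => (hS ε hε).2) hcomm hx)
  exact ⟨t, ht, fun ε hε => ht0 (Submodule.subset_span hε)⟩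

theorem exists_max (G : Set (End K V)) : ∃ S ⊆ G, (∀ ε ∈ S, ∀ ε' ∈ S, ε * ε' = ε' * ε) ∧
    ∀ e ∈ G, (∀ ε ∈ S, e * ε = ε * e) → e ∈ Submodule.span K S := by
  obtain ⟨W, ⟨S, hSG, hS, rfl⟩, hmax⟩ := (wellFounded_gt (α := Submodule K (End K V))).has_min
    {W | ∃ S ⊆ G, (∀ ε ∈ S, ∀ ε' ∈ S, ε * ε' = ε' * ε) ∧ Submodule.span K S = W}
    ⟨_, ∅, Set.empty_subset G, fun ε hε => absurd hε (Set.notMem_empty ε), rfl⟩
  refine ⟨S, hSG, hS, fun e he hc => ?_⟩
  by_contra hne
  refine hmax (Submodule.span K (insert e S)) ⟨insert e S, Set.insert_subset he hSG, ?_, rfl⟩ ?_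
  · rintro a (rfl | ha) b (rfl | hb)
    · rfl
    · exact hc b hb
    · exact (hc a ha).symm
    · exact hS a ha b hb
  · refine lt_of_le_of_ne (Submodule.span_mono (Set.subset_insert e S)) fun h => hne ?_
    rw [h]
    exact Submodule.subset_span (Set.mem_insert e S)

end Pool.Agent.Mod4
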