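import Pool.Agent.Mod4.Ideal
import Pool.Agent.Mod4.Split
import Pool.Agent.Mod4.Torus
import Pool.Agent.Mod4.AllIn
import Pool.Agent.Mod4.Good
import Pool.Agent.Mod4.RootSys
import Pool.Agent.Mod4.Pos
import Pool.Agent.Mod4.Top
import Pool.Agent.Mod4.OddTop
import Pool.Agent.Mod4.Count
import Pool.Agent.Mod4.RankLe
import Pool.Agent.PrimePow.Main

/-!
# Symplectic irreducible subspaces of dimension four or two modulo four
-/

set_option autoImplicit false
set_option linter.unusedSectionVars false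

namespace Pool.Agent.Mod4

open Module Pool.Agent.CoprimeSig Pool.Agent.PrimePow
open Pool.Agent.OddRank (Stable Irreducible Semisimple exists_proj lieSpan subset_lieSpan
  lieSpan_lie lieSpan_le stable_span trace_nondeg exists_adjoint)
open Pool.Agent.TypeIV.MX

variable {K V : Type*} [Field K] [CharZero K] [IsAlgClosed K] [AddCommGroup V] [Module K V]
  [FiniteDimensional K V]

/-- the irreducible case: an element of square zero and odd rank -/
theorem exists_nilp {G : Set (End K V)} (hGe : ∀ e ∈ G, e * e = e)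
    (hirr : ∀ U : Submodule K V, (∀ e ∈ G, ∀ w ∈ U, e w ∈ U) → U = ⊥ ∨ U = ⊤)
    {ψ : V →ₗ[K] V →ₗ[K] K} (halt : ∀ x, ψ x x = 0) (hnd : ∀ x, (∀ y, ψ x y = 0) → x = 0)
    (hψ : ∀ e ∈ G, ∀ u v, ψ (e u) v + ψ u (e v) = ψ u v)
    (hsim : ∀ D ∈ lieSpan G, ∃ μ : K, ∀ u v, ψ (D u) v + ψ u (D v) = μ * ψ u v)
    (hdim : finrank K V % 4 = 2 ∨ finrank K V = 4) :
    ∃ N ∈ lieSpan G, N * N = 0 ∧
      (Odd (finrank K (LinearMap.range N)) ∨ finrank K (LinearMap.range N) = 2) := by
  have hnt : Nontrivial V := by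
    rw [← finrank_pos_iff (R := K)]
    omega
  have hirr' : ∀ U : Submodule K V, (∀ D ∈ lieSpan G, ∀ w ∈ U, D w ∈ U) → U = ⊥ ∨ U = ⊤ :=
    fun U hU => hirr U fun e he => hU e (subset_lieSpan e he)
  have hlie := lieSpan_lie (G := G)
  have hndt := trace_nondeg (lieSpan G) hlie hirr'
  have hsc := schur_irr hirr'
  obtain ⟨σ, h1, h2, h3, h4⟩ := exists_adjoint halt hnd
  have htr : ∀ e ∈ G, 2 * LinearMap.trace K V e = (finrank K V : K) := by
    intro e he
    have h5 : σ e = 1 - e := by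
      ext v
      rw [← sub_eq_zero]
      apply hnd
      intro u
      rw [Pool.Agent.OddRank.alt_neg halt, neg_eq_zero, map_sub, ← h1, sub_eq_zero]
      have := hψ e he u v
      simp only [LinearMap.sub_apply, map_sub, Module.End.one_apply]
      rw [← this, add_sub_cancel_right]
    have h6 := h4 e
    rw [h5, map_sub, LinearMap.trace_one] at h6
    linear_combination -h6
  -- a generator
  obtain ⟨e, he⟩ : ∃ e, e ∈ G := by
    by_contra hcon
    push Not at hcon
    obtain ⟨w, hw⟩ := exists_ne (0 : V)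
    rcases hirr (K ∙ w) (fun e he => absurd he (hcon e)) with h | h
    · exact hw (Submodule.span_singleton_eq_bot.1 h)
    · have h5 := finrank_span_singleton (K := K) hw
      rw [h, finrank_top] at h5
      omega
  have hee := hGe e he
  have hrk : 2 * finrank K (LinearMap.range e) = finrank K V := by
    have h5 := htr e he
    rw [trace_idem hee] at h5
    exact_mod_cast h5
  have htre : LinearMap.trace K V e ≠ 0 := by
    rw [trace_idem hee, Nat.cast_ne_zero]
    omega
  have hone := one_mem hlie hndt hsc (subset_lieSpan e he) htre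
  rcases hdim with hdim | hdim
  · obtain ⟨S, hSG, hScomm, hSmax⟩ := exists_max G
    obtain ⟨t, C, hSt⟩ := exists_cartan_set hlie hndt hsc hone
      (fun ε hε => ⟨subset_lieSpan ε (hSG hε), hGe ε (hSG hε)⟩) hScomm
    have hone' : (1 : End K V) ∈ t := C.cent 1 hone fun y _ => by rw [mul_one, one_mul]
    have hGt : ∀ e ∈ G, LinearMap.trace K V ((2 : K) • e - 1) = 0 := by
      intro e he
      rw [map_sub, map_smul, smul_eq_mul, htr e he, LinearMap.trace_one, sub_self]
    have hall := all_in hGe hone hGt hirr hSG hSmax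
    have hgood : ∀ (α : End K V → K) (x : End K V), IsRoot (lieSpan G) t α x → x ≠ 0 →
        (∃ τ ∈ t, α τ ≠ 0) → ∃ y, Opp (lieSpan G) t α x y := by
      intro α x hx hx0 hα
      obtain ⟨ε, hε, hεε, hαε⟩ := good C (fun ε hε => ⟨hSt ε hε, hGe ε (hSG hε)⟩) hall hx hx0 hα
      exact (exists_opp C hx hx0 hε hεε hαε).2
    obtain ⟨n, P, α, x, y, RD, i1, i2, i3⟩ := exists_rd C hone' hsc hgood
    obtain ⟨ι, _, α, x, y, m, H, E, F, R⟩ := exists_pr C hone' RD i1 i2 i3
    obtain ⟨v, N, hv0, hv, hEv, hvt, hvα⟩ := exists_top R C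
    have hspan := gen_top R C hirr' hv0 hv hvt hvα
    have hN := odd_top R hv0 hv hEv hspan halt hnd hsim
    -- an idempotent of the torus
    obtain ⟨ε, hεS⟩ : ∃ ε, ε ∈ S := by
      by_contra hcon
      push Not at hcon
      have h5 := hSmax e he fun ε hε => absurd hε (hcon ε)
      rw [Set.eq_empty_of_forall_notMem hcon, Submodule.span_empty, Submodule.mem_bot] at h5
      rw [h5, map_zero] at htre
      exact htre rfl
    obtain ⟨h, hh⟩ : ∃ h, finrank K V = 2 * h := ⟨_, hrk.symm⟩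
    obtain ⟨i, hi⟩ := exists_odd R C (fun u μ hu0 hu => odd_weights hN hv hspan hu0 hu) halt hnd
      hsim (hSt ε hεS) (hGe ε (hSG hεS)) (hψ ε (hSG hεS)) hh (by
        rw [Nat.odd_iff]
        omega)
    exact ⟨x i, (R.opp i).rx.mem, (R.opp i).xx, Or.inl hi⟩
  · obtain ⟨N, hN, hN0, hNN, hle⟩ := exists_rank_le hlie hsc (subset_lieSpan e he) hee
      (by
        intro h
        rw [h, map_zero] at htre
        exact htre rfl)
      (by
        intro h
        have h5 := htr e he
        rw [h, LinearMap.trace_one] at h5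
        have h6 : (finrank K V : K) = 0 := by linear_combination h5
        rw [Nat.cast_eq_zero] at h6
        omega)
    refine ⟨N, hN, hNN, ?_⟩
    have h5 : finrank K (LinearMap.range N) ≠ 0 := by
      intro h6
      apply hN0
      rwa [Submodule.finrank_eq_zero, LinearMap.range_eq_bot] at h6
    have h6 : finrank K (LinearMap.range N) = 1 ∨ finrank K (LinearMap.range N) = 2 := by omega
    rcases h6 with h6 | h6
    · left
      rw [h6]
      exact odd_one
    · exact Or.inr h6

section Kinds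

variable {G : Set (Module.End K V)} (hGe : ∀ e ∈ G, e * e = e) (hss : Semisimple G)
  {W : Submodule K V} (hW : Irreducible G W)
include hGe hss hW

/-- symplectic subspaces of dimension four or two modulo four -/
theorem ksp_of_mod4 {φ : V →ₗ[K] V →ₗ[K] K} (halt : ∀ x ∈ W, φ x x = 0)
    (hnd : ∀ x ∈ W, (∀ y ∈ W, φ x y = 0) → x = 0)
    (hφ : ∀ e ∈ G, ∀ x ∈ W, ∀ y ∈ W, φ (e x) y + φ x (e y) = φ x y)
    (hdim : finrank K W % 4 = 2 ∨ finrank K W = 4) : KSp G W := by
  obtain ⟨p, hp, hpe⟩ := exists_proj hss hW.1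
  have H := irrData hGe hW hp
  have hgst : ∀ x ∈ lieSpan G, ∀ w ∈ W, x w ∈ W := fun x hx => stable_span hW.1 x hx
  have hGst : ∀ e ∈ G, ∀ w ∈ W, e w ∈ W := fun e he => hW.1 e he
  have hnd' : ∀ x : W, (∀ y : W, (φ.compl₁₂ W.subtype W.subtype) x y = 0) → x = 0 :=
    fun x hx => Subtype.ext (hnd x x.2 fun y hy => hx ⟨y, hy⟩)
  have hφ' : ∀ e ∈ rst p '' G, ∀ u v, (φ.compl₁₂ W.subtype W.subtype) (e u) v +
      (φ.compl₁₂ W.subtype W.subtype) u (e v) = (φ.compl₁₂ W.subtype W.subtype) u v := by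
    rintro _ ⟨e, he, rfl⟩ u v
    have h1 := hφ e he u u.2 v v.2
    rw [← rst_apply hp (hGst e he), ← rst_apply hp (hGst e he)] at h1
    exact h1
  have halt' : ∀ x : W, (φ.compl₁₂ W.subtype W.subtype) x x = 0 := fun x => halt x x.2
  have hle : lieSpan (rst p '' G) ≤ (lieSpan G).map (rst p) :=
    lieSpan_le H.hG H.hlie
  obtain ⟨N, hN, hNN, h⟩ := exists_nilp H.hGe H.hirr halt' hnd' hφ'
    (fun D hD => H.hgen _ hφ' D (hle hD)) hdim
  have hφ'' : ∀ e ∈ G, ∀ u u₂ v v₂ : W, (u₂ : V) = e u → (v₂ : V) = e v →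
      (φ.compl₁₂ W.subtype W.subtype) u₂ v + (φ.compl₁₂ W.subtype W.subtype) u v₂ =
        (φ.compl₁₂ W.subtype W.subtype) u v := by
    intro e he u u₂ v v₂ hu hv
    have h1 := hφ e he u u.2 v v.2
    rw [← hu, ← hv] at h1
    exact h1
  rcases h with h | h
  · exact ksp_of_mm hGe hss hW halt' hnd' hφ'' hp
      (H.mm_of_odd hnd' hφ' (hle hN) hNN h)
  · exact ksp_of_mm hGe hss hW halt' hnd' hφ'' hp
      (H.mm_of_two halt' hnd' hφ' (hle hN) hNN h)

end Kinds

end Pool.Agent.Mod4
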