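import Pool.Agent.Mod4.Defs
import Pool.Agent.OddRank.TraceND

/-!
# Ideals of an irreducible Lie algebra
-/

set_option autoImplicit false
set_option linter.unusedSectionVars false

namespace Pool.Agent.Mod4

open Module Pool.Agent.CoprimeSig

variable {K V : Type*} [Field K] [CharZero K] [IsAlgClosed K] [AddCommGroup V] [Module K V]
  [FiniteDimensional K V] {g t : Submodule K (End K V)}

theorem abelian_zero [Nontrivial V]
    (hirr : ∀ U : Submodule K V, (∀ a ∈ g, ∀ w ∈ U, a w ∈ U) → U = ⊥ ∨ U = ⊤)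
    {r : Submodule K (End K V)} (hrg : r ≤ g) (hr : ∀ x ∈ g, ∀ z ∈ r, x * z - z * x ∈ r)
    (hab : ∀ a ∈ r, ∀ b ∈ r, a * b = b * a) (htr : ∀ a ∈ r, LinearMap.trace K V a = 0) :
    ∀ a ∈ r, a = 0 := by
  have hnil : ∀ x ∈ r, IsNilpotent x := by
    intro x hx
    obtain ⟨l, hl⟩ := OddRank.tnd_scalar g hirr x (fun D hD => by
      have h1 := r.neg_mem (hr D hD x hx)
      rw [neg_sub] at h1
      exact hab x hx _ h1)
    have t1 : LinearMap.trace K V (x - algebraMap K (End K V) l) = 0 :=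
      (LinearMap.isNilpotent_trace_of_isNilpotent hl).eq_zero
    rw [map_sub, htr x hx, Algebra.algebraMap_eq_smul_one, map_smul, LinearMap.trace_one,
      zero_sub, neg_eq_zero, smul_eq_mul, mul_eq_zero] at t1
    have h2 : l = 0 := by
      rcases t1 with h | h
      · exact h
      · exfalso
        have : (0 : ℕ) < Module.finrank K V := Module.finrank_pos
        exact this.ne' (Nat.cast_eq_zero.1 h)
    rw [h2, map_zero, sub_zero] at hl
    exact hl
  exact OddRank.tnd_ideal g r hirr (fun a ha b hb => hr a (hrg ha) b hb) hr hnil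

theorem split_ideal [Nontrivial V] (hlie : ∀ a ∈ g, ∀ b ∈ g, a * b - b * a ∈ g)
    (hirr : ∀ U : Submodule K V, (∀ a ∈ g, ∀ w ∈ U, a w ∈ U) → U = ⊥ ∨ U = ⊤)
    {s : Submodule K (End K V)} (hsg : s ≤ g) (hs : ∀ x ∈ g, ∀ z ∈ s, x * z - z * x ∈ s)
    (htr : ∀ a ∈ s, LinearMap.trace K V a = 0) :
    ∀ x ∈ g, ∃ a ∈ s, ∃ b ∈ g, x = a + b ∧ ∀ y ∈ s, b * y = y * b := by
  have hnd := OddRank.trace_nondeg g hlie hirr
  let r : Submodule K (End K V) :=
    { carrier := {b | b ∈ s ∧ ∀ y ∈ s, LinearMap.trace K V (b * y) = 0}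
      add_mem' := fun {x y} hx hy => ⟨s.add_mem hx.1 hy.1, fun z hz => by
        rw [add_mul, map_add, hx.2 z hz, hy.2 z hz, add_zero]⟩
      zero_mem' := ⟨s.zero_mem, fun z _ => by rw [zero_mul, map_zero]⟩
      smul_mem' := fun c x hx => ⟨s.smul_mem c hx.1, fun z hz => by
        rw [smul_mul_assoc, map_smul, hx.2 z hz, smul_zero]⟩ }
  have hmr : ∀ b, b ∈ r ↔ b ∈ s ∧ ∀ y ∈ s, LinearMap.trace K V (b * y) = 0 := fun _ => Iff.rfl
  have hrg : r ≤ g := fun b hb => hsg hb.1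
  -- invariance of the trace form
  have hinv : ∀ a b c : End K V, LinearMap.trace K V ((a * b - b * a) * c) =
      LinearMap.trace K V (a * (b * c - c * b)) := by
    intro a b c
    rw [sub_mul, mul_sub, map_sub, map_sub, mul_assoc, mul_assoc b a c,
      LinearMap.trace_mul_comm K b, mul_assoc]
  have hr : ∀ x ∈ g, ∀ z ∈ r, x * z - z * x ∈ r := by
    intro x hx z hz
    refine (hmr _).2 ⟨hs x hx z hz.1, fun y hy => ?_⟩
    have h1 := hz.2 _ (hs x hx y hy)
    have h2 := hinv z x y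
    rw [h1] at h2
    have h3 : x * z - z * x = -(z * x - x * z) := by rw [neg_sub]
    rw [h3, neg_mul, map_neg, h2, neg_zero]
  have hab : ∀ a ∈ r, ∀ b ∈ r, a * b = b * a := by
    intro a ha b hb
    rw [← sub_eq_zero]
    refine hnd _ (hlie a (hrg ha) b (hrg hb)) fun c hc => ?_
    rw [hinv]
    apply ha.2
    have h1 := s.neg_mem (hs c hc b hb.1)
    rwa [neg_sub] at h1
  have hr0 := abelian_zero hirr hrg hr hab (fun a ha => htr a ha.1)
  intro x hx
  obtain ⟨a, ha, h⟩ := PrimePow.exists_part (g := s) (fun y hy h => hr0 y ((hmr y).2 ⟨hy, h⟩)) x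
  refine ⟨a, ha, x - a, g.sub_mem hx (hsg ha), by abel, fun y hy => ?_⟩
  rw [← sub_eq_zero]
  have hb : x - a ∈ g := g.sub_mem hx (hsg ha)
  refine hr0 _ ((hmr _).2 ⟨hs _ hb y hy, fun z hz => ?_⟩)
  rw [hinv]
  refine h _ (hs y (hsg hy) z hz)

end Pool.Agent.Mod4
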