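import Pool.Agent.CoprimeSig.Opp
import Pool.Agent.CoprimeSig.Wl
import Pool.Agent.OddRank.RankTwo

/-!
# Opposite root vectors: integrality and conjugation
-/

set_option autoImplicit false
set_option linter.unusedSectionVars false

namespace Pool.Agent.Mod4

open Module Pool.Agent.CoprimeSig
open Pool.Agent.OddRank (quad_mem0)

variable {K V : Type*} [Field K] [CharZero K] [AddCommGroup V] [Module K V]
  [FiniteDimensional K V] {g t : Submodule K (End K V)} {α β : End K V → K} {x y z : End K V}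

/-- interchanging the two root vectors -/
theorem opp_swap (P : Opp g t α x y) : Opp g t (fun τ => -α τ) y x := by
  refine ⟨P.ry, ⟨P.rx.mem, fun τ hτ => ?_⟩, P.yy, P.xx, P.yxy, P.xyx, ?_⟩
  · rw [P.rx.root τ hτ, neg_neg]
  · have := t.neg_mem P.mem
    rwa [neg_sub] at this

theorem opp_cube (P : Opp g t α x y) :
    (x * y - y * x) * ((x * y - y * x) * (x * y - y * x)) = x * y - y * x := by
  have e1 : x * y * (x * y) = x * y := by rw [← mul_assoc, P.xyx]
  have e2 : y * x * (y * x) = y * x := by rw [← mul_assoc, P.yxy]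
  have e3 : x * y * (y * x) = 0 := by rw [mul_assoc, ← mul_assoc y, P.yy, zero_mul, mul_zero]
  have e4 : y * x * (x * y) = 0 := by rw [mul_assoc, ← mul_assoc x, P.xx, zero_mul, mul_zero]
  have e5 : (x * y - y * x) * (x * y - y * x) = x * y + y * x := by
    rw [sub_mul, mul_sub, mul_sub, e1, e2, e3, e4]
    abel
  rw [e5, mul_add, sub_mul, sub_mul, e1, e2, e3, e4]
  abel

theorem opp_sq (P : Opp g t α x y) :
    (x * y - y * x) * (x * y - y * x) = x * y + y * x := by
  have e1 : x * y * (x * y) = x * y := by rw [← mul_assoc, P.xyx]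
  have e2 : y * x * (y * x) = y * x := by rw [← mul_assoc, P.yxy]
  have e3 : x * y * (y * x) = 0 := by rw [mul_assoc, ← mul_assoc y, P.yy, zero_mul, mul_zero]
  have e4 : y * x * (x * y) = 0 := by rw [mul_assoc, ← mul_assoc x, P.xx, zero_mul, mul_zero]
  rw [sub_mul, mul_sub, mul_sub, e1, e2, e3, e4]
  abel

/-- the value of the root on the coroot -/
theorem opp_two (P : Opp g t α x y) (hx0 : x ≠ 0) : α (x * y - y * x) = 2 := by
  have h1 := P.rx.root _ P.mem
  have h2 : (x * y - y * x) * x - x * (x * y - y * x) = (2 : K) • x := by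
    rw [sub_mul, mul_sub, P.xyx, mul_assoc y x x, P.xx, mul_zero, ← mul_assoc, P.xx, zero_mul,
      ← mul_assoc, P.xyx, two_smul]
    abel
  rw [h2] at h1
  exact (smul_left_injective K hx0 h1).symm

/-- the eigenvalues of the coroot -/
theorem opp_eig {I : Type*} (P : Opp g t α x y) (v : Basis I K V)
    (hv : ∀ τ ∈ t, ∀ i, ∃ c : K, τ (v i) = c • v i) :
    ∃ q : I → ℤ, (∀ i, q i = -1 ∨ q i = 0 ∨ q i = 1) ∧
      ∀ i, (x * y - y * x) (v i) = (q i : K) • v i := by
  have hval : ∀ i, ∃ q : ℤ, (q = -1 ∨ q = 0 ∨ q = 1) ∧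
      (x * y - y * x) (v i) = (q : K) • v i := by
    intro i
    obtain ⟨r, hr⟩ := hv _ P.mem i
    have h3 := LinearMap.congr_fun (opp_cube P) (v i)
    rw [Module.End.mul_apply, Module.End.mul_apply, hr, map_smul, hr, map_smul, map_smul, hr,
      smul_smul, smul_smul] at h3
    have h4 : r * (r * r) = r := by
      have h5 := smul_left_injective K (v.ne_zero i) h3
      rw [← mul_assoc]
      exact h5
    have h5 : r * ((r - 1) * (r + 1)) = 0 := by linear_combination h4
    rcases mul_eq_zero.1 h5 with h6 | h6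
    · exact ⟨0, Or.inr (Or.inl rfl), by rw [hr, h6, Int.cast_zero]⟩
    · rcases mul_eq_zero.1 h6 with h7 | h7
      · exact ⟨1, Or.inr (Or.inr rfl), by rw [hr, sub_eq_zero.1 h7, Int.cast_one]⟩
      · exact ⟨-1, Or.inl rfl, by
          rw [hr, eq_neg_of_add_eq_zero_left h7, Int.cast_neg, Int.cast_one]⟩
  choose q hq1 hq2 using hval
  exact ⟨q, hq1, hq2⟩

/-- the trace form and the coroot -/
theorem trace_h (P : Opp g t α x y) {τ : End K V} (hτ : τ ∈ t) :
    LinearMap.trace K V (τ * (x * y - y * x)) = α τ * LinearMap.trace K V (x * y) := by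
  have e : LinearMap.trace K V (τ * (x * y - y * x)) =
      LinearMap.trace K V ((τ * x - x * τ) * y) := by
    have e1 : τ * (x * y - y * x) = τ * x * y - τ * y * x := by noncomm_ring
    have e2 : (τ * x - x * τ) * y = τ * x * y - x * (τ * y) := by noncomm_ring
    rw [e1, e2, map_sub, map_sub, LinearMap.trace_mul_comm K (τ * y) x]
  rw [e, P.rx.root τ hτ, smul_mul_assoc, map_smul, smul_eq_mul]

/-- the trace of `x y` is the rank of `x` -/
theorem trace_xy (P : Opp g t α x y) :
    LinearMap.trace K V (x * y) = (finrank K (LinearMap.range x) : K) := by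
  have h1 : LinearMap.IsProj (LinearMap.range x) (x * y) := by
    constructor
    · intro w
      exact ⟨y w, rfl⟩
    · rintro _ ⟨w, rfl⟩
      rw [← Module.End.mul_apply, P.xyx]
  exact h1.trace

theorem trace_xy_ne (P : Opp g t α x y) (hx0 : x ≠ 0) : LinearMap.trace K V (x * y) ≠ 0 := by
  rw [trace_xy P, Nat.cast_ne_zero]
  intro h
  apply hx0
  rwa [Submodule.finrank_eq_zero, LinearMap.range_eq_bot] at h

/-- roots are linear on `t` -/
theorem root_add (hx : IsRoot g t α x) (hx0 : x ≠ 0) {τ τ' : End K V} (hτ : τ ∈ t)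
    (hτ' : τ' ∈ t) : α (τ + τ') = α τ + α τ' := by
  have h1 := hx.root _ (t.add_mem hτ hτ')
  have h2 : (τ + τ') * x - x * (τ + τ') = (α τ + α τ') • x := by
    rw [add_smul, ← hx.root τ hτ, ← hx.root τ' hτ']
    noncomm_ring
  rw [h2] at h1
  exact (smul_left_injective K hx0 h1).symm

theorem root_smul (hx : IsRoot g t α x) (hx0 : x ≠ 0) {τ : End K V} (hτ : τ ∈ t) (c : K) :
    α (c • τ) = c * α τ := by
  have h1 := hx.root _ (t.smul_mem c hτ)
  rw [smul_mul_assoc, mul_smul_comm, ← smul_sub, hx.root τ hτ, smul_smul] at h1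
  exact (smul_left_injective K hx0 h1).symm

theorem root_sub (hx : IsRoot g t α x) (hx0 : x ≠ 0) {τ τ' : End K V} (hτ : τ ∈ t)
    (hτ' : τ' ∈ t) : α (τ - τ') = α τ - α τ' := by
  have h1 : τ - τ' = τ + (-1 : K) • τ' := by rw [neg_one_smul, sub_eq_add_neg]
  rw [h1, root_add hx hx0 hτ (t.smul_mem _ hτ'), root_smul hx hx0 hτ']
  ring

/-- two functions which are roots of the same vector agree on `t` -/
theorem root_unique (hx : IsRoot g t α x) (hx' : IsRoot g t β x) (hx0 : x ≠ 0) {τ : End K V}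
    (hτ : τ ∈ t) : α τ = β τ := by
  have h1 := hx.root τ hτ
  rw [hx'.root τ hτ] at h1
  exact (smul_left_injective K hx0 h1).symm

/-- a root is the difference of two weights -/
theorem root_diff {I : Type*} (hx : IsRoot g t α x) (hx0 : x ≠ 0) (v : Basis I K V)
    (hv : ∀ τ ∈ t, ∀ i, ∃ c : K, τ (v i) = c • v i) :
    ∃ i j, ∀ τ ∈ t, ∀ c d : K, τ (v i) = c • v i → τ (v j) = d • v j → α τ = c - d := by
  classical
  obtain ⟨j, hj⟩ : ∃ j, x (v j) ≠ 0 := by
    by_contra hcon
    push Not at hcon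
    exact hx0 (v.ext fun j => by rw [hcon, LinearMap.zero_apply])
  obtain ⟨i, hi⟩ : ∃ i, v.repr (x (v j)) i ≠ 0 := by
    by_contra hcon
    push Not at hcon
    apply hj
    apply v.repr.injective
    ext i
    rw [hcon, map_zero, Finsupp.zero_apply]
  refine ⟨i, j, fun τ hτ c d hc hd => ?_⟩
  choose a ha using hv τ hτ
  have hac : a i = c := smul_left_injective K (v.ne_zero i) ((ha i).symm.trans hc)
  have hr : ∀ w : V, v.repr (τ w) i = a i * v.repr w i := by
    intro w
    have h1 : v.coord i ∘ₗ τ = a i • v.coord i := by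
      refine v.ext fun k => ?_
      simp only [LinearMap.comp_apply, ha, map_smul, LinearMap.smul_apply, Basis.coord_apply,
        Basis.repr_self, smul_eq_mul]
      by_cases hk : k = i
      · rw [hk]
      · rw [Finsupp.single_eq_of_ne (Ne.symm hk), mul_zero, mul_zero]
    exact LinearMap.congr_fun h1 w
  have h1 := congrArg (fun w : V => v.repr w i) (LinearMap.congr_fun (hx.root τ hτ) (v j))
  simp only [LinearMap.sub_apply, Module.End.mul_apply, LinearMap.smul_apply, map_sub,
    map_smul, Finsupp.sub_apply, Finsupp.smul_apply, smul_eq_mul] at h1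
  rw [hr, hd, map_smul, map_smul, Finsupp.smul_apply, smul_eq_mul, ← sub_mul] at h1
  rw [← hac]
  exact (mul_right_cancel₀ hi h1).symm

/-- conjugation by the Weyl group element preserves `g` -/
theorem conj_mem (hlie : ∀ a ∈ g, ∀ b ∈ g, a * b - b * a ∈ g) (P : Opp g t α x y) (hz : z ∈ g) :
    wl x y * z * wlInv x y ∈ g := by
  have key : ∀ {a z : End K V}, a ∈ g → a * a = 0 → z ∈ g → (1 + a) * z * (1 - a) ∈ g := by
    intro a z ha haa hz
    have e : (1 + a) * z * (1 - a) = z + (a * z - z * a) - a * z * a := by noncomm_ring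
    rw [e]
    exact g.sub_mem (g.add_mem hz (hlie a ha z hz)) (quad_mem0 hlie ha haa hz)
  have h1 := key P.rx.mem P.xx hz
  have h2 := key (a := -y) (g.neg_mem P.ry.mem) (by rw [neg_mul_neg, P.yy]) h1
  have h3 := key P.rx.mem P.xx h2
  have e : wl x y * z * wlInv x y = (1 + x) * ((1 + -y) * ((1 + x) * z * (1 - x)) * (1 - -y)) *
      (1 - x) := by
    rw [wl, wlInv]
    noncomm_ring
  rw [e]
  exact h3

/-- conjugation of root vectors -/
theorem conj_root (hlie : ∀ a ∈ g, ∀ b ∈ g, a * b - b * a ∈ g) (P : Opp g t α x y)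
    (hz : IsRoot g t β z) (hz0 : z ≠ 0) :
    IsRoot g t (fun τ => β τ - α τ * β (x * y - y * x)) (wl x y * z * wlInv x y) := by
  obtain ⟨k1, k2, -, k3⟩ := wl_mul_inv P
  refine ⟨conj_mem hlie P hz.mem, fun τ hτ => ?_⟩
  have h1 : τ * wl x y = wl x y * (τ - α τ • (x * y - y * x)) := by
    rw [← k3 τ hτ, ← mul_assoc, ← mul_assoc, k1, one_mul]
  have h2 : wlInv x y * τ = (τ - α τ • (x * y - y * x)) * wlInv x y := by
    rw [← k3 τ hτ, mul_assoc, k1, mul_one]
  have hm : τ - α τ • (x * y - y * x) ∈ t := t.sub_mem hτ (t.smul_mem _ P.mem)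
  have h3 := hz.root _ hm
  rw [root_sub hz hz0 hτ (t.smul_mem _ P.mem), root_smul hz hz0 P.mem] at h3
  have e : τ * (wl x y * z * wlInv x y) - wl x y * z * wlInv x y * τ =
      wl x y * ((τ - α τ • (x * y - y * x)) * z - z * (τ - α τ • (x * y - y * x))) *
        wlInv x y := by
    rw [mul_sub, sub_mul, mul_assoc (wl x y * z), h2, ← mul_assoc, ← mul_assoc, h1]
    simp only [mul_assoc]
  rw [e, h3, mul_smul_comm, smul_mul_assoc]

theorem conj_ne (P : Opp g t α x y) (hz0 : z ≠ 0) : wl x y * z * wlInv x y ≠ 0 := by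
  obtain ⟨k1, k2, -, -⟩ := wl_mul_inv P
  intro h
  apply hz0
  have h1 : wlInv x y * (wl x y * z * wlInv x y) * wl x y = z := by
    rw [mul_assoc (wl x y), ← mul_assoc (wlInv x y), k2, one_mul, mul_assoc, k2, mul_one]
  rw [← h1, h, mul_zero, zero_mul]

/-- conjugation of idempotents -/
theorem conj_idem (P : Opp g t α x y) {ε : End K V} (hε : ε ∈ t) (hεε : ε * ε = ε) :
    ε - α ε • (x * y - y * x) ∈ t ∧ (ε - α ε • (x * y - y * x)) *
      (ε - α ε • (x * y - y * x)) = ε - α ε • (x * y - y * x) := by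
  obtain ⟨k1, k2, -, k3⟩ := wl_mul_inv P
  refine ⟨t.sub_mem hε (t.smul_mem _ P.mem), ?_⟩
  rw [← k3 ε hε]
  calc wlInv x y * ε * wl x y * (wlInv x y * ε * wl x y) =
      wlInv x y * ε * (wl x y * wlInv x y) * ε * wl x y := by simp only [mul_assoc]
    _ = wlInv x y * (ε * ε) * wl x y := by rw [k1, mul_one, mul_assoc (wlInv x y)]
    _ = _ := by rw [hεε]

end Pool.Agent.Mod4
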