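import Pool.Agent.Mod4.Basic
import Pool.Agent.PrimePow.CartanEx
import Pool.Agent.TypeIV.Kinds

/-!
# Positive roots and the principal three-dimensional subalgebra: definitions
-/

set_option autoImplicit false
set_option linter.unusedSectionVars false

namespace Pool.Agent.Mod4

open Module Pool.Agent.CoprimeSig

variable {K V : Type*} [Field K] [AddCommGroup V] [Module K V]

/-- A system of positive roots `α i` (coroots `x i * y i - y i * x i`), the sum `H` of the positive
coroots and a principal three-dimensional subalgebra `H`, `E`, `F`; `m i` is the height. -/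
structure PR {ι : Type} [Fintype ι] (g t : Submodule K (End K V)) (α : ι → End K V → K)
    (x y : ι → End K V) (m : ι → ℕ) (H E F : End K V) : Prop where
  opp : ∀ i, Opp g t (α i) (x i) (y i)
  ne : ∀ i, x i ≠ 0
  H_eq : H = ∑ i, (x i * y i - y i * x i)
  mpos : ∀ i, 0 < m i
  val : ∀ i, α i H = 2 * (m i : K)
  span : ∀ z ∈ g, z ∈ t ⊔ (Submodule.span K {w | ∃ i, IsRoot g t (α i) w} ⊔
    Submodule.span K {w | ∃ i, IsRoot g t (fun τ => -α i τ) w})
  Eg : E ∈ g
  Fg : F ∈ g
  EF : E * F - F * E = H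
  HE : H * E - E * H = (2 : K) • E
  HF : H * F - F * H = (-2 : K) • F

/-- The elements of trace zero. -/
noncomputable def tz (t : Submodule K (End K V)) : Submodule K (End K V) :=
  t ⊓ LinearMap.ker (LinearMap.trace K V)

/-- The root system `P` of `t` in `g`. -/
structure RD {n : ℕ} (g t : Submodule K (End K V))
    (P : RootPairing (Fin n) K (Dual K (tz t)) (tz t)) (α : Fin n → End K V → K)
    (x y : Fin n → End K V) : Prop where
  opp : ∀ i, Opp g t (α i) (x i) (y i)
  ne : ∀ i, x i ≠ 0
  pair : ∀ (φ : Dual K (tz t)) (τ : tz t), P.toLinearMap φ τ = φ τ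
  root : ∀ (i : Fin n) (τ : tz t), P.root i τ = α i τ
  coroot : ∀ i, (P.coroot i : End K V) = x i * y i - y i * x i
  all : ∀ (β : End K V → K) (z : End K V), IsRoot g t β z → z ≠ 0 → (∃ τ ∈ t, β τ ≠ 0) →
    ∃ i, ∀ τ ∈ t, β τ = α i τ

/-- The ideal of `g` generated by the elements `2 ε - 1`, `ε ∈ S`. -/
def idl (g : Submodule K (End K V)) (S : Set (End K V)) : Submodule K (End K V) :=
  sInf {I | (∀ ε ∈ S, (2 : K) • ε - 1 ∈ I) ∧ ∀ x ∈ g, ∀ z ∈ I, x * z - z * x ∈ I}

end Pool.Agent.Mod4
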